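import Pool.Agent.P.MP_b91a16_ag.Dt.Fischer
import Pool.Agent.P.MP_b91a16_ag.St.Final

/-! Transfer of local Bernstein-Sato equations to the model. -/

set_option linter.unusedSectionVars false

open MvPolynomial

namespace Pool.Agent.P.MP_b91a16_ag.Dt

noncomputable section

open St

variable {k β ζ α : Type} [Field k] [Fintype β] [DecidableEq β] [Fintype ζ] [DecidableEq ζ]
  [Fintype α] [DecidableEq α]

variable (ζ) in
/-- Substitution of a polynomial in new variables. -/
def sub (P : MvPolynomial β k) : Polynomial (MvPolynomial ζ k) →ₐ[k] MvPolynomial (β ⊕ ζ) k :=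
  Polynomial.aevalTower (rename Sum.inr) (rename Sum.inl P)

@[simp] theorem sub_X (P : MvPolynomial β k) : sub ζ P Polynomial.X = rename Sum.inl P :=
  Polynomial.aevalTower_X _ _

@[simp] theorem sub_C (P : MvPolynomial β k) (c : MvPolynomial ζ k) :
    sub ζ P (Polynomial.C c) = rename Sum.inr c := Polynomial.aevalTower_C _ _ _

theorem pderiv_rename_inl (f : MvPolynomial ζ k) (b : β) :
    pderiv (Sum.inl b) (rename (Sum.inr : ζ → β ⊕ ζ) f) = 0 := by
  refine pderiv_eq_zero_of_notMem_vars fun h => ?_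
  obtain ⟨j, -, h⟩ := mem_vars_rename _ _ h
  simp at h

theorem pderiv_sub (P : MvPolynomial β k) (a : β) (φ : Polynomial (MvPolynomial ζ k)) :
    pderiv (.inl a) (sub ζ P φ) = sub ζ P φ.derivative * rename Sum.inl (pderiv a P) := by
  induction φ using Polynomial.induction_on' with
  | add φ φ' h h' => simp [h, h', add_mul]
  | monomial j c =>
    rw [← Polynomial.C_mul_X_pow_eq_monomial, Polynomial.derivative_C_mul_X_pow]
    simp [pderiv_rename_inl, pderiv_rename Sum.inl_injective]
    ring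

theorem pderiv_sub_inr (P : MvPolynomial β k) (j : ζ) {φ φ' : Polynomial (MvPolynomial ζ k)}
    (h : ∀ i, φ'.coeff i = pderiv j (φ.coeff i)) : sub ζ P φ' = pderiv (.inr j) (sub ζ P φ) := by
  have key : ∀ ψ : Polynomial (MvPolynomial ζ k), ψ.natDegree < φ.natDegree + φ'.natDegree + 1 →
      sub ζ P ψ = ∑ i ∈ Finset.range (φ.natDegree + φ'.natDegree + 1),
        rename Sum.inr (ψ.coeff i) * rename Sum.inl P ^ i :=
    fun ψ hψ => Polynomial.eval₂_eq_sum_range' _ hψ _
  rw [key φ (by omega), key φ' (by omega)]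
  simp [h, pderiv_rename Sum.inr_injective, pderiv_rename_inr, mul_comm]

abbrev Ix (d : α → ℕ) : Type := (i : α) → Fin (d i)

abbrev Vr (d : α → ℕ) : Type := Ix d ⊕ (Σ i, Fin (d i))

variable (k) in
/-- The model polynomial. -/
def mdl (d : α → ℕ) : MvPolynomial (Vr d) k := ∑ I : Ix d, X (.inl I) * ∏ i, X (.inr ⟨i, I i⟩)

theorem pderiv_prod_X {σ ι : Type} {s : Finset ι} {v : ι → σ} {a : σ} (h : ∀ i ∈ s, v i ≠ a) :
    pderiv a (∏ i ∈ s, X (v i) : MvPolynomial σ k) = 0 :=
  Finset.prod_induction _ (fun p => pderiv a p = 0) (fun p q hp hq => by simp [hp, hq]) (by simp)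
    fun i hi => pderiv_X_of_ne (h i hi)

variable {d : α → ℕ}

theorem pderiv_mdl_Z (I : Ix d) : pderiv (.inl I) (mdl k d) = ∏ i, X (.inr ⟨i, I i⟩) := by
  simp [mdl, pderiv_prod_X, pderiv_X, Pi.single_apply]

theorem mdl_euler (t : α) :
    ∑ c, X (.inr ⟨t, c⟩) * pderiv (.inr ⟨t, c⟩) (mdl k d) = mdl k d := by
  simp only [mdl, map_sum, Finset.mul_sum]
  rw [Finset.sum_comm]
  refine Finset.sum_congr rfl fun I _ => ?_
  rw [← Finset.mul_prod_erase _ _ (Finset.mem_univ t)]
  have h : ∀ c, pderiv (.inr ⟨t, c⟩ : Vr d)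
      (∏ i ∈ Finset.univ.erase t, X (.inr ⟨i, I i⟩) : MvPolynomial (Vr d) k) = 0 := fun c =>
    pderiv_prod_X fun i hi e => Finset.ne_of_mem_erase hi
      (congrArg Sigma.fst (Sum.inr_injective e))
  simp [h, pderiv_X, Pi.single_apply]
  ring

variable (ζ k d) in
/-- The lowering operator. -/
def dl : Module.End (MvPolynomial ζ k) (Polynomial (MvPolynomial ζ k)) :=
  Polynomial.aeval (th _) (∏ i, (Polynomial.X + (d i : Polynomial (MvPolynomial ζ k)))) *
    Polynomial.derivative

theorem dl_pow (j : ℕ) : dl k ζ d (Polynomial.X ^ (j + 1)) =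
    ((j + 1) * ∏ i, (j + d i) : MvPolynomial ζ k) • Polynomial.X ^ j := by
  ext1 i
  rw [dl, Module.End.mul_apply, coeff_th, Polynomial.coeff_derivative]
  by_cases e : i = j
  · simp [e, Polynomial.eval_prod, mul_comm]
  · simp [e, Polynomial.coeff_X_pow]

variable {f : MvPolynomial (Vr d ⊕ ζ) k} {ψ : ℕ → Polynomial (MvPolynomial ζ k)}

theorem Fm_sum {σ ι : Type} [Fintype σ] [DecidableEq σ] [Fintype ι] {g : MvPolynomial σ k}
    {F : ι → ℕ → MvPolynomial σ k} (h : ∀ i, F i ∈ Fm g) : (fun m => ∑ i, F i m) ∈ Fm g :=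
  mo (sum_mem fun i (_ : i ∈ Finset.univ) => h i) fun _ => Finset.sum_apply _ _ _

theorem Fm_th (h : (fun m => sub ζ (mdl k d) (ψ m)) ∈ Fm f) :
    (fun m => sub ζ (mdl k d) (th _ (ψ m))) ∈ Fm f := by
  refine mo (Fm_sum fun I : Ix d => Fm_mul (Fm_pderiv h (.inl (.inl I))) (X (.inl (.inl I))))
    fun m => ?_
  simp only [pderiv_sub, pderiv_mdl_Z, th, LinearMap.comp_apply, LinearMap.mulLeft_apply, map_mul,
    sub_X, mul_left_comm (X _), ← Finset.mul_sum]
  simp [mdl, mul_comm]

theorem Fm_dl (hd : ∀ i, 0 < d i) (h : (fun m => sub ζ (mdl k d) (ψ m)) ∈ Fm f) :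
    (fun m => sub ζ (mdl k d) (dl k ζ d (ψ m))) ∈ Fm f := by
  have key : ∀ (s : Finset α) (I : Ix d), (fun m => (∏ i ∈ sᶜ, X (.inl (.inr ⟨i, I i⟩))) *
      sub ζ (mdl k d) (Polynomial.aeval (th _) (∏ i ∈ s,
        (Polynomial.X + (d i : Polynomial (MvPolynomial ζ k)))) (ψ m).derivative)) ∈ Fm f := by
    intro s
    induction s using Finset.induction_on with
    | empty =>
      exact fun I => mo (Fm_pderiv h (.inl (.inl I))) fun m => by
        simp [pderiv_sub, pderiv_mdl_Z, mul_comm]
    | insert t s ht ih =>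
      intro I
      refine mo (Fm_sum fun c : Fin (d t) =>
        Fm_pderiv (ih (Function.update I t c)) (.inl (.inr ⟨t, c⟩))) fun m => ?_
      have h1 : ∀ c, (∏ i ∈ sᶜ, X (.inl (.inr ⟨i, Function.update I t c i⟩)) :
          MvPolynomial (Vr d ⊕ ζ) k) =
          X (.inl (.inr ⟨t, c⟩)) * ∏ i ∈ (insert t s)ᶜ, X (.inl (.inr ⟨i, I i⟩)) := fun c => by
        rw [← Finset.mul_prod_erase _ _ (Finset.mem_compl.2 ht), Function.update_self,
          Finset.compl_insert]
        congr 1
        exact Finset.prod_congr rfl fun i hi => by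
          rw [Function.update_of_ne (Finset.ne_of_mem_erase hi)]
      have h2 : ∀ c, pderiv (.inl (.inr ⟨t, c⟩) : Vr d ⊕ ζ) (∏ i ∈ (insert t s)ᶜ,
          X (.inl (.inr ⟨i, I i⟩)) : MvPolynomial (Vr d ⊕ ζ) k) = 0 := fun c =>
        pderiv_prod_X fun i hi e => by
          have := congrArg Sigma.fst (Sum.inr_injective (Sum.inl_injective e))
          simp_all
      have h3 := congrArg (rename (Sum.inl : Vr d → Vr d ⊕ ζ)) (mdl_euler (k := k) (d := d) t)
      simp only [map_sum, map_mul, rename_X] at h3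
      rw [Finset.prod_insert ht, map_mul, Module.End.mul_apply]
      generalize Polynomial.aeval (th _) (∏ i ∈ s,
        (Polynomial.X + (d i : Polynomial (MvPolynomial ζ k)))) (ψ m).derivative = χ
      have h4 : sub ζ (mdl k d) (Polynomial.aeval (th (MvPolynomial ζ k))
          (Polynomial.X + (d t : Polynomial (MvPolynomial ζ k))) χ) =
          rename Sum.inl (mdl k d) * sub ζ (mdl k d) χ.derivative +
            (d t : MvPolynomial (Vr d ⊕ ζ) k) * sub ζ (mdl k d) χ := by
        simp [th]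
      simp only [h1, pderiv_mul, h2, pderiv_sub, pderiv_X_self, mul_zero, add_zero, one_mul,
        Finset.sum_add_distrib, Finset.sum_const, Finset.card_univ, Fintype.card_fin, nsmul_eq_mul]
      rw [h4, ← h3, mul_add, add_comm, Finset.sum_mul, Finset.mul_sum]
      exact congrArg₂ (· + ·) (Finset.sum_congr rfl fun c _ => by ring) (by ring)
  simpa [dl] using key Finset.univ fun i => ⟨0, hd i⟩

theorem Fm_Al (hd : ∀ i, 0 < d i) {A : Module.End _ (Polynomial (MvPolynomial ζ k))}
    (hA : A ∈ Al (dl k ζ d)) (h : (fun m => sub ζ (mdl k d) (ψ m)) ∈ Fm f) :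
    (fun m => sub ζ (mdl k d) (A (ψ m))) ∈ Fm f := by
  induction hA using Algebra.adjoin_induction generalizing ψ with
  | mem A hA =>
    rcases hA with rfl | rfl | rfl
    · simpa using Fm_mul h (rename Sum.inl (mdl k d))
    · exact Fm_th h
    · exact Fm_dl hd h
  | algebraMap c => simpa [Polynomial.smul_eq_C_mul] using Fm_mul h (rename Sum.inr c)
  | add A A' _ _ h1 h2 => exact mo (add_mem (h1 h) (h2 h)) (by simp)
  | mul A A' _ _ h1 h2 => exact h1 (h2 h)

variable (k β ζ) in
def toIt : MvPolynomial (β ⊕ ζ) k →ₐ[k] MvPolynomial β (MvPolynomial ζ k) :=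
  aeval (Sum.elim X fun j => C (X j))

theorem toIt_inr (c : MvPolynomial ζ k) : toIt k β ζ (rename Sum.inr c) = C c := by
  induction c using MvPolynomial.induction_on <;> simp_all [toIt]

theorem toIt_sub (P : MvPolynomial β k) (φ : Polynomial (MvPolynomial ζ k)) :
    toIt k β ζ (sub ζ P φ) = Polynomial.aeval (map (C : k →+* MvPolynomial ζ k) P) φ := by
  have h : toIt k β ζ (rename Sum.inl P) = map C P := by
    induction P using MvPolynomial.induction_on <;> simp_all [toIt]
  induction φ using Polynomial.induction_on' with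
  | add φ φ' h h' => simp [h, h']
  | monomial j c =>
    rw [← Polynomial.C_mul_X_pow_eq_monomial]
    simp [toIt_inr, h]

theorem toIt_pderiv (a : β) (p : MvPolynomial (β ⊕ ζ) k) :
    toIt k β ζ (pderiv (.inl a) p) = pderiv a (toIt k β ζ p) := by
  induction p using MvPolynomial.induction_on with
  | C c => simp [toIt]
  | add p q hp hq => simp [hp, hq]
  | mul_X p i hp =>
    rw [pderiv_mul, map_add, map_mul, map_mul, map_mul, pderiv_mul, hp]
    rcases i with i | i
    · by_cases e : i = a <;> simp [toIt, e]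
    · simp [toIt]

/-- Differentiation of the coefficients. -/
def Rel (j : ζ) (p p' : MvPolynomial β (MvPolynomial ζ k)) : Prop :=
  ∀ v, coeff v p' = pderiv j (coeff v p)

theorem Rel.wd {j : ζ} {Q : Module.End _ (MvPolynomial β (MvPolynomial ζ k))} (hQ : Q ∈ Wd _ β)
    {p p' : MvPolynomial β (MvPolynomial ζ k)} (h : Rel j p p') : Rel j (Q p) (Q p') := by
  induction hQ using Submonoid.closure_induction generalizing p p' with
  | one => exact h
  | mul Q T _ _ h1 h2 => exact h1 (h2 h)
  | mem Q hQ =>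
    rcases hQ with ⟨a, rfl⟩ | ⟨a, rfl⟩
    · intro v
      simp only [LinearMap.mulLeft_apply, coeff_X_mul', h _]
      split_ifs <;> simp
    · intro v
      simp [coeff_pderiv, h _, mul_comm]

theorem rel_toIt (j : ζ) (p : MvPolynomial (β ⊕ ζ) k) :
    Rel j (toIt k β ζ p) (toIt k β ζ (pderiv (.inr j) p)) := by
  induction p using MvPolynomial.induction_on with
  | C c =>
    intro v
    simp only [toIt, aeval_C, MvPolynomial.algebraMap_apply, coeff_C, pderiv_C, map_zero, coeff_zero]
    split_ifs <;> simp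
  | add p q hp hq => exact fun v => by simp [hp v, hq v]
  | mul_X p i hp =>
    intro v
    rw [pderiv_mul, map_add, map_mul, map_mul, map_mul]
    rcases i with i | i
    · simp only [toIt, aeval_X, Sum.elim_inl, coeff_mul_X', coeff_add] at hp ⊢
      split_ifs <;> simp [hp _]
    · have := hp v
      simp only [toIt] at this
      by_cases e : i = j <;> simp [toIt, e, mul_comm _ (C _), this, pderiv_X]

theorem Rel.fis {j : ζ} {p p' : MvPolynomial β (MvPolynomial ζ k)} (h : Rel j p p')
    (u : MvPolynomial β k) : fis (map C u) p' = pderiv j (fis (map C u) p) := by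
  induction u using MvPolynomial.induction_on' with
  | add u u' h1 h2 => simp [h1, h2]
  | monomial v c => simp [fis_monomial, h v]

theorem LB.transfer {P : MvPolynomial β k} {b : ℕ → kˣ} (hd : ∀ i, 0 < d i)
    (hb : ∀ j, (b j : k) = (j + 1) * ∏ i, (j + d i : k))
    (h : Cay (map (C : k →+* MvPolynomial ζ k) P) fun j => Units.map C.toMonoidHom (b j))
    {F : Polynomial (MvPolynomial ζ k)} {c : Polynomial k} (hF : LB (sub ζ P F) c) :
    LB (sub ζ (mdl k d) F) c := by
  obtain ⟨g, h0, h1⟩ := hF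
  let T : Submodule k (ℕ → MvPolynomial (β ⊕ ζ) k) :=
    { carrier := {Φ | ∀ Q ∈ Wd _ β, (fun m => sub ζ (mdl k d) (h.pr (Q (toIt k β ζ (Φ m))))) ∈
        Fm (sub ζ (mdl k d) F)}
      add_mem' := fun h2 h3 Q hQ => mo (add_mem (h2 Q hQ) (h3 Q hQ)) (by simp)
      zero_mem' := fun Q hQ => mo (zero_mem _) (by simp)
      smul_mem' := fun c Φ h2 Q hQ => mo (Submodule.smul_mem _ c (h2 Q hQ)) (by simp) }
  have h2 : Fm (sub ζ P F) ≤ T := by
    refine Fm_le (fun Q hQ => ?_) (fun Φ hΦ j Q hQ => ?_) (fun Φ hΦ j Q hQ => ?_)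
      fun Φ hΦ Q hQ => mo (Fm_nat (hΦ Q hQ)) (by simp)
    · obtain ⟨A, hA, h3⟩ := h.core (δ := dl k ζ d) (by simp [dl])
        (fun j => by rw [dl_pow]; simp [hb]) hQ
      refine mo (Fm_Al hd hA (ψ := fun m => F ^ (m + 1)) (by simpa using Fm_base)) fun m => ?_
      beta_reduce
      rw [← map_pow (sub ζ P), toIt_sub, h3]
    · rcases j with a | j
      · exact mo (hΦ _ (mul_mem hQ (Submonoid.subset_closure (Or.inl ⟨a, rfl⟩)))) (by simp [toIt])
      · refine mo (Fm_mul (hΦ Q hQ) (X (.inr j))) fun m => ?_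
        rw [map_mul, show toIt k β ζ (X (.inr j)) = C (X j) by simp [toIt], C_mul', map_smul,
          map_smul]
        simp [Polynomial.smul_eq_C_mul]
    · rcases j with a | j
      · exact mo (hΦ _ (mul_mem hQ (Submonoid.subset_closure (Or.inr ⟨a, rfl⟩))))
          (by simp [toIt_pderiv])
      · refine mo (Fm_pderiv (hΦ Q hQ) (.inr j)) fun m => (pderiv_sub_inr _ _ fun i => ?_).symm
        rw [h.coeff_pr, h.coeff_pr, ← map_pow, ((rel_toIt j (Φ m)).wd hQ).fis, nn, ← map_prod,
          ← map_inv]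
        exact pderiv_C_mul.symm
  refine ⟨sub ζ (mdl k d) (h.pr (toIt k β ζ g)), ?_, mo (h2 h1 1 (one_mem _)) fun m => ?_⟩
  · have h3 : ∀ φ, constantCoeff (sub ζ (mdl k d) φ) = constantCoeff (φ.coeff 0) := fun φ => by
      induction φ using Polynomial.induction_on' with
      | add φ φ' h h' => simp [h, h']
      | monomial j c =>
        rw [← Polynomial.C_mul_X_pow_eq_monomial]
        rcases j with _ | j <;> simp [mdl]
    have h4 : ∀ g, constantCoeff (constantCoeff (toIt k β ζ g)) = constantCoeff g := fun g => by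
      induction g using MvPolynomial.induction_on with
      | C c => simp [toIt]
      | add p q hp hq => simp [hp, hq]
      | mul_X p i hp => rcases i with i | i <;> simp [toIt]
    rwa [h3, h.coeff_pr, pow_zero, fis_one, nn, Finset.prod_range_zero, inv_one, Units.val_one,
      one_mul, h4]
  · rw [Module.End.one_apply, map_smul, ← map_pow, map_mul, toIt_sub, LinearMap.map_smul_of_tower,
      h.pr_aeval, map_smul, map_mul, map_pow]

end

end Pool.Agent.P.MP_b91a16_ag.Dt
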