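import Mathlib

/-! The Cayley identity for the generic determinant. -/

open Matrix

namespace Pool.Agent.P.MP_b91a16_ag.Dt

noncomputable section

variable {B S ν : Type} [CommRing B] [CommRing S] [Algebra B S] [Fintype ν] [DecidableEq ν]

theorem der_prod {α : Type} [DecidableEq α] (d : Derivation B S S) (s : Finset α) (f : α → S) :
    d (∏ i ∈ s, f i) = ∑ i ∈ s, ∏ j ∈ s, Function.update f i (d (f i)) j := by
  induction s using Finset.induction_on with
  | empty => simp
  | insert a s ha ih =>
    rw [Finset.prod_insert ha, Derivation.leibniz, ih, Finset.sum_insert ha, Finset.prod_insert ha,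
      Function.update_self, smul_eq_mul, smul_eq_mul, Finset.mul_sum, add_comm, mul_comm]
    congr 1
    · congr 1
      exact Finset.prod_congr rfl fun j hj =>
        (Function.update_of_ne (ne_of_mem_of_not_mem hj ha) _ _).symm
    · refine Finset.sum_congr rfl fun i hi => ?_
      rw [Finset.prod_insert ha, Function.update_of_ne (ne_of_mem_of_not_mem hi ha).symm]

theorem der_det (d : Derivation B S S) (A : Matrix ν ν S) :
    d A.det = ∑ i, (A.updateRow i fun j => d (A i j)).det := by
  simp only [← det_transpose (updateRow _ _ _), ← det_transpose A, det_apply' _ᵀ, map_sum,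
    Derivation.leibniz, Derivation.map_intCast, add_zero, smul_eq_mul, der_prod,
    Finset.mul_sum, mul_zero]
  rw [Finset.sum_comm]
  refine Finset.sum_congr rfl fun i _ => Finset.sum_congr rfl fun σ _ => ?_
  congr 1
  refine Finset.prod_congr rfl fun j _ => ?_
  by_cases h : j = i
  · subst h
    simp
  · simp [h]

variable {M : Matrix ν ν S} {d : ν → ν → Derivation B S S}

/-- The derivations are the partial derivatives in the entries of the matrix. -/
def Gen (M : Matrix ν ν S) (d : ν → ν → Derivation B S S) : Prop :=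
  ∀ i j a b, d i j (M a b) = if a = i ∧ b = j then 1 else 0

theorem Gen.det (h : Gen M d) (i j : ν) : d i j M.det = M.adjugate j i := by
  rw [der_det, Finset.sum_eq_single i (fun a _ ha => ?_) (by simp), adjugate_apply]
  · congr 2
    funext b
    simp [h i j, Pi.single_apply]
  · exact det_eq_zero_of_row_eq_zero a fun b => by simp [h i j, ha]

theorem Gen.adj (h : Gen M d) (i j a b : ν) : M.det * d i j (M.adjugate b a) =
    M.adjugate j i * M.adjugate b a - M.adjugate b i * M.adjugate j a := by
  have h1 : ∀ c, ∑ e, M c e * d i j (M.adjugate e a) =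
      (if c = a then M.adjugate j i else 0) - if c = i then M.adjugate j a else 0 := fun c => by
    have h2 := congrArg (d i j) (congrFun (congrFun (mul_adjugate M) c) a)
    simp only [mul_apply, map_sum, Derivation.leibniz, smul_eq_mul, h i j, Finset.sum_add_distrib,
      Matrix.smul_apply, one_apply] at h2
    rw [eq_sub_iff_add_eq]
    convert h2 using 2
    · by_cases e : c = i <;> simp [e]
    · by_cases e : c = a <;> simp [e, h.det]
  have h3 : ∑ c, M.adjugate b c * ∑ e, M c e * d i j (M.adjugate e a) =
      M.det * d i j (M.adjugate b a) := by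
    simp only [Finset.mul_sum, ← mul_assoc]
    rw [Finset.sum_comm]
    simp only [← Finset.sum_mul, ← mul_apply, adjugate_mul]
    simp [one_apply]
  rw [← h3]
  simp [h1, mul_sub, mul_comm]

variable (d) in
/-- The minors of the matrix of partial derivatives. -/
def cay : (k : ℕ) → (Fin k → ν) → (Fin k → ν) → S →ₗ[B] S
  | 0, _, _ => LinearMap.id
  | k + 1, a, b => ∑ q : Fin (k + 1), (-1 : B) ^ (q : ℕ) •
      (d (a 0) (b q)).toLinearMap ∘ₗ cay k (a ∘ Fin.succ) (b ∘ q.succAbove)

theorem swap_expand {k : ℕ} (A : Matrix (Fin (k + 1)) (Fin (k + 1)) S) (p : Fin k) :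
    ∑ q : Fin (k + 1), (-1) ^ (q : ℕ) * A p.succ q *
      ((A.submatrix Fin.succ q.succAbove).updateRow p fun q' => A 0 (q.succAbove q')).det =
      -A.det := by
  have h1 := det_permute (Equiv.swap 0 p.succ) A
  rw [Equiv.Perm.sign_swap (Fin.succ_ne_zero p).symm, det_succ_row_zero] at h1
  refine Eq.trans (Finset.sum_congr rfl fun q _ => ?_) (h1.trans (by simp))
  congr 2
  ext i j
  by_cases h : i = p
  · simp [h]
  · simp [h, Equiv.swap_apply_of_ne_of_ne]

theorem Gen.cay_pow (h : Gen M d) (s k : ℕ) (a b : Fin k → ν) :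
    M.det ^ k * cay d k a b (M.det ^ s) = (∏ i ∈ Finset.range k, (s + i : S)) * M.det ^ s *
      (Matrix.of fun p q => M.adjugate (b q) (a p)).det := by
  induction k with
  | zero => simp [cay]
  | succ k ih =>
    set A := Matrix.of fun p q => M.adjugate (b q) (a p)
    have hp : ∀ (i j : ν) (m : ℕ), M.det * d i j (M.det ^ m) = m * M.det ^ m * M.adjugate j i :=
      fun i j m => by
      rw [Derivation.leibniz_pow, h.det]
      rcases m with _ | m
      · simp
      · simp only [Nat.add_sub_cancel, smul_eq_mul, nsmul_eq_mul]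
        ring
    have key : ∀ q : Fin (k + 1), M.det ^ (k + 1) * d (a 0) (b q)
        (cay d k (a ∘ Fin.succ) (b ∘ q.succAbove) (M.det ^ s)) =
        (∏ i ∈ Finset.range k, (s + i : S)) * M.det ^ s *
        (s * (A 0 q * (A.submatrix Fin.succ q.succAbove).det) - ∑ p : Fin k, A p.succ q *
          ((A.submatrix Fin.succ q.succAbove).updateRow p fun q' => A 0 (q.succAbove q')).det) := by
      intro q
      have h1 := ih (a ∘ Fin.succ) (b ∘ q.succAbove)
      have h2 := congrArg (fun z => M.det * d (a 0) (b q) z) h1
      have h3 : d (a 0) (b q) (∏ i ∈ Finset.range k, (s + i : S)) = 0 := by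
        rw [show (∏ i ∈ Finset.range k, (s + i : S)) = ((∏ i ∈ Finset.range k, (s + i) : ℕ) : S) by
          simp, Derivation.map_natCast]
      have h4 : M.det * d (a 0) (b q) (A.submatrix Fin.succ q.succAbove).det =
          k * (A 0 q * (A.submatrix Fin.succ q.succAbove).det) - ∑ p : Fin k, A p.succ q *
          ((A.submatrix Fin.succ q.succAbove).updateRow p fun q' => A 0 (q.succAbove q')).det := by
        rw [der_det, Finset.mul_sum, eq_sub_iff_add_eq, ← Finset.sum_add_distrib,
          Finset.sum_congr rfl (g := fun _ => A 0 q * (A.submatrix Fin.succ q.succAbove).det)]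
        · simp
        intro p _
        rw [← det_updateRow_smul, ← det_updateRow_smul, ← det_updateRow_add]
        conv_rhs => rw [← updateRow_eq_self (A.submatrix _ _) p, ← det_updateRow_smul]
        congr 2
        funext q'
        simp [A, h.adj, mul_comm]
      change M.det * d (a 0) (b q) _ = M.det * d (a 0) (b q) (_ * _ *
        (A.submatrix Fin.succ q.succAbove).det) at h2
      change _ = _ * _ * (A.submatrix Fin.succ q.succAbove).det at h1
      simp only [Derivation.leibniz, h3, smul_eq_mul, mul_zero, add_zero] at h2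
      have h5 := hp (a 0) (b q) k
      have h6 := hp (a 0) (b q) s
      have h7 : M.adjugate (b q) (a 0) = A 0 q := rfl
      rw [h7] at h5 h6
      linear_combination h2 - cay d k (a ∘ Fin.succ) (b ∘ q.succAbove) (M.det ^ s) * h5 -
        k * A 0 q * h1 + (∏ i ∈ Finset.range k, (s + i : S)) *
          (M.det ^ s * h4 + (A.submatrix Fin.succ q.succAbove).det * h6)
    have h8 : ∀ (q : ℕ) (z : S), (-1 : B) ^ q • z = (-1) ^ q * z := fun q z => by
      simp [Algebra.smul_def]
    simp only [cay, LinearMap.sum_apply, LinearMap.smul_apply, LinearMap.comp_apply,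
      Derivation.coeFn_coe, h8, Finset.mul_sum, mul_left_comm (M.det ^ (k + 1)), key,
      Finset.prod_range_succ]
    have h9 := det_succ_row_zero A
    have h10 : ∑ p : Fin k, ∑ q : Fin (k + 1), (-1) ^ (q : ℕ) * A p.succ q *
        ((A.submatrix Fin.succ q.succAbove).updateRow p fun q' => A 0 (q.succAbove q')).det =
        -(k * A.det) := by simp [swap_expand]
    rw [Finset.sum_comm] at h10
    refine (Finset.sum_congr rfl (g := fun q : Fin (k + 1) =>
      (∏ i ∈ Finset.range k, (s + i : S)) * M.det ^ s * (s * ((-1) ^ (q : ℕ) * A 0 q *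
        (A.submatrix Fin.succ q.succAbove).det) - ∑ p : Fin k, (-1) ^ (q : ℕ) * A p.succ q *
        ((A.submatrix Fin.succ q.succAbove).updateRow p fun q' => A 0 (q.succAbove q')).det))
      fun q _ => ?_).trans ?_
    · simp only [mul_assoc ((-1 : S) ^ _), ← Finset.mul_sum]
      ring
    · rw [← Finset.mul_sum, Finset.sum_sub_distrib, ← Finset.mul_sum, ← h9, h10]
      ring

/-- The Cayley identity. -/
theorem Gen.cayley {n : ℕ} {M : Matrix (Fin (n + 1)) (Fin (n + 1)) S} [IsDomain S]
    {d : Fin (n + 1) → Fin (n + 1) → Derivation B S S} (h : Gen M d) (h0 : M.det ≠ 0) (s : ℕ) :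
    cay d (n + 1) id id (M.det ^ (s + 1)) =
      (∏ i ∈ Finset.range (n + 1), (s + 1 + i : S)) * M.det ^ s := by
  have h1 := h.cay_pow (s + 1) (n + 1) id id
  rw [show (Matrix.of fun p q => M.adjugate (id q) (id p)) = M.adjugateᵀ from rfl, det_transpose,
    det_adjugate, Fintype.card_fin, Nat.add_sub_cancel] at h1
  refine mul_left_cancel₀ (pow_ne_zero (n + 1) h0) (h1.trans ?_)
  push_cast
  ring

end

end Pool.Agent.P.MP_b91a16_ag.Dt
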