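import Pool.Agent.P.MP_b91a16_ag.DefsLoc

/-! Compositions with generic determinants. -/

namespace Pool.Agent.P.MP_b91a16_ag.Dt

noncomputable section

/-- The polynomial `F(det X_1, …, det X_r, z_1, …, z_l)`, where `X_i` is the `n i × n i` matrix of
variables; `ε` numbers the entries of the matrices and the `z_j` as the variables of affine
`N`-space. -/
def detComp {k : Type} [Field k] {r l N : ℕ} (n : Fin r → ℕ)
    (ε : (Σ i : Fin r, Fin (n i) × Fin (n i)) ⊕ Fin l ≃ Fin N)
    (F : MvPolynomial (Fin (r + l)) k) : MvPolynomial (Fin N) k :=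
  MvPolynomial.aeval (fun a : Fin (r + l) => a.addCases
    (fun i => (Matrix.of fun p q : Fin (n i) =>
      (MvPolynomial.X (ε (Sum.inl ⟨i, (p, q)⟩)) : MvPolynomial (Fin N) k)).det)
    fun j => MvPolynomial.X (ε (Sum.inr j))) F

end

end Pool.Agent.P.MP_b91a16_ag.Dt
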