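import Pool.Agent.P.MP_b91a16_ag.Dt.Vt

/-! The determinant and its model have the same volumes and Bernstein-Sato equations. -/

set_option linter.unusedSectionVars false

open MvPolynomial

namespace Pool.Agent.P.MP_b91a16_ag.Dt

noncomputable section

open St

variable {k β ζ : Type} [Field k] [Fintype β] [DecidableEq β] [Fintype ζ] [DecidableEq ζ]

variable (k) in
/-- The generic determinant. -/
def dt (n : ℕ) : MvPolynomial (Fin n × Fin n) k := (Matrix.mvPolynomialX (Fin n) (Fin n) k).det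

theorem aeval_dt {S : Type} [CommRing S] [Algebra k S] {n : ℕ} (γ : Fin n × Fin n → S) :
    aeval γ (dt k n) = (Matrix.of fun i j => γ (i, j)).det := by
  rw [dt, AlgHom.map_det]
  congr 1
  ext i j
  simp

def rowD (n : ℕ) : Fin (n + 1) ↪ Fin (n + 1) × Fin (n + 1) := ⟨fun c => (0, c), fun _ _ h => by simpa using h⟩

theorem dt_lin {n : ℕ} (S : Type) [CommRing S] [Algebra k S] (s : S)
    (γ : Fin (n + 1) × Fin (n + 1) → S) :
    aeval (fun j => if ∃ c, rowD n c = j then s * γ j else γ j) (dt k (n + 1)) =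
      s * aeval γ (dt k (n + 1)) := by
  have h := Matrix.det_mul_column (fun i : Fin (n + 1) => if i = 0 then s else 1)
    (Matrix.of fun i j => γ (i, j))
  rw [Finset.prod_ite_eq', if_pos (Finset.mem_univ _)] at h
  rw [aeval_dt, aeval_dt, ← h]
  congr 1
  ext i j
  by_cases e : i = 0 <;> simp [rowD, e, eq_comm (a := (0 : Fin (n + 1)))]

theorem dt_piv {n : ℕ} (c : Fin (n + 2)) : ∃ (ε : Fin (n + 1) × Fin (n + 1) ↪ Fin (n + 2) × Fin (n + 2))
    (ψ ψ' : Fin (n + 2) × Fin (n + 2) → MvPolynomial (Fin (n + 2) × Fin (n + 2)) k),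
    (∀ j c, ε j ≠ rowD (n + 1) c) ∧ Tri ψ (rowD (n + 1) c) ∧ Tri ψ' (rowD (n + 1) c) ∧
    (∀ c, ψ (rowD (n + 1) c) = X (rowD (n + 1) c)) ∧ (∀ c, ψ' (rowD (n + 1) c) = X (rowD (n + 1) c)) ∧
    aeval ψ (dt k (n + 2)) = aeval ψ' (rename ε (dt k (n + 1))) := by
  refine ⟨(Fin.succEmb _).prodMap c.succAboveEmb, fun p => (if p.1 = 0 ∨ p.2 = c then 0 else X p) +
    (if p.1 = 0 then 1 else X (p.1, c)) * X (0, p.2), fun p => (if p.1 = 1 then
      (-1) ^ (c : ℕ) * X (0, c) else 1) * X p, fun j c => by simp [rowD, Prod.ext_iff],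
    fun S _ _ => ⟨fun γ γ' h e => ?_, fun γ' h => ?_⟩, fun S _ _ => ⟨fun γ γ' h e => ?_,
      fun γ' h => ?_⟩, fun c => by simp [rowD], fun c => by simp [rowD], ?_⟩
  · have h0 : ∀ j, γ' (0, j) = γ (0, j) := fun j => by simpa using e (0, j)
    have h1 : ∀ i, i ≠ 0 → γ' (i, c) = γ (i, c) := fun i hi =>
      h.mul_right_cancel (by simpa [hi, h0, rowD] using e (i, c))
    funext ⟨i, j⟩
    by_cases hi : i = 0
    · exact hi ▸ h0 j
    by_cases hj : j = c
    · exact hj ▸ h1 i hi
    simpa [hi, hj, h0, h1] using e (i, j)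
  · obtain ⟨u, hu⟩ := h.exists_left_inv
    refine ⟨fun p => if p.1 = 0 then γ' p else if p.2 = c then γ' p * u else
      γ' p - γ' (p.1, c) * u * γ' (0, p.2), fun ⟨i, j⟩ => ?_⟩
    by_cases hi : i = 0
    · simp [hi]
    by_cases hj : j = c
    · simp [hi, hj, mul_assoc, show u * γ' (0, c) = 1 from hu]
    simp [hi, hj]
  · have h0 : γ' (0, c) = γ (0, c) := by simpa using e (0, c)
    funext ⟨i, j⟩
    by_cases hi : i = 1
    · exact ((isUnit_one.neg.pow (c : ℕ)).mul h).mul_left_cancel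
        (by simpa [hi, h0, rowD] using e (i, j))
    simpa [hi] using e (i, j)
  · obtain ⟨u, hu⟩ := ((isUnit_one.neg.pow (c : ℕ)).mul h).exists_right_inv
    refine ⟨fun p => if p.1 = 1 then u * γ' p else γ' p, fun ⟨i, j⟩ => ?_⟩
    by_cases hi : i = 1
    · simp [hi, ← mul_assoc, show (-1) ^ (c : ℕ) * γ' (0, c) * u = 1 from hu]
    simp [hi]
  · rw [aeval_rename, aeval_dt, aeval_dt, Matrix.det_eq_of_forall_row_eq_smul_add_const
      (B := Matrix.of fun i j => if i = 0 then X (0, j) else if j = c then 0 else X (i, j))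
      (fun i => if i = 0 then 0 else X (i, c)) 0 (by simp) (fun i j => by
        by_cases hi : i = 0 <;> simp [hi]), Matrix.det_succ_column _ c, Fin.sum_univ_succ]
    have h := Matrix.det_mul_column (fun i : Fin (n + 1) => if i = 0 then (-1) ^ (c : ℕ) *
      (X (0, c) : MvPolynomial (Fin (n + 2) × Fin (n + 2)) k) else 1)
      (Matrix.of fun i j => X (i.succ, c.succAbove j))
    rw [Finset.prod_ite_eq', if_pos (Finset.mem_univ _)] at h
    simp only [Matrix.of_apply, Fin.succ_ne_zero, if_true, if_false, mul_zero, zero_mul,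
      Finset.sum_const_zero, add_zero, Fin.val_zero, zero_add]
    refine Eq.trans ?_ (h.symm.trans ?_)
    · congr 2
      ext i j : 2
      simp
    · congr 1
      ext i j : 2
      have : i.succ = 1 ↔ i = 0 := Fin.succ_inj (b := 0)
      simp [this]

theorem aeval_mdl {α S : Type} [Fintype α] [DecidableEq α] [CommRing S] [Algebra k S] {d : α → ℕ}
    (γ : Vr d → S) : aeval γ (mdl k d) = ∑ I : Ix d, γ (.inl I) * ∏ i, γ (.inr ⟨i, I i⟩) := by
  simp [mdl]

variable {m : ℕ} {d : Fin (m + 1) → ℕ}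

variable (d) in
def rowM : Fin (d 0) ↪ Vr d := ⟨fun c => .inr ⟨0, c⟩, fun _ _ h => by simpa using h⟩

theorem mdl_lin (S : Type) [CommRing S] [Algebra k S] (s : S) (γ : Vr d → S) :
    aeval (fun j => if ∃ c, rowM d c = j then s * γ j else γ j) (mdl k d) =
      s * aeval γ (mdl k d) := by
  rw [aeval_mdl, aeval_mdl, Finset.mul_sum]
  refine Finset.sum_congr rfl fun I _ => ?_
  simp [rowM, Fin.prod_univ_succ, (Fin.succ_ne_zero _).symm]
  ring

theorem mdl_piv (c : Fin (d 0)) : ∃ (ε : Vr (fun i : Fin m => d i.succ) ↪ Vr d)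
    (ψ ψ' : Vr d → MvPolynomial (Vr d) k), (∀ j c, ε j ≠ rowM d c) ∧ Tri ψ (rowM d c) ∧
    Tri ψ' (rowM d c) ∧ (∀ c, ψ (rowM d c) = X (rowM d c)) ∧ (∀ c, ψ' (rowM d c) = X (rowM d c)) ∧
    aeval ψ (mdl k d) = aeval ψ' (rename ε (mdl k fun i : Fin m => d i.succ)) := by
  refine ⟨Function.Embedding.sumMap ⟨fun I => Fin.cons c I,
    Fin.cons_right_injective (α := fun i => Fin (d i)) c⟩
    ⟨fun p => ⟨p.1.succ, p.2⟩, fun ⟨i, a⟩ ⟨j, b⟩ h => ?_⟩, X, Sum.elim (fun I => if I 0 = c then
      ∑ c', X (.inl (Function.update I 0 c')) * X (.inr ⟨0, c'⟩) else X (.inl I)) fun p => X (.inr p),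
    ?_, fun S _ _ => ⟨fun γ γ' _ e => by simpa [funext_iff] using e, fun γ' _ => ⟨γ', by simp⟩⟩,
    fun S _ _ => ⟨fun γ γ' h e => ?_, fun γ' h => ?_⟩, fun c => rfl, fun c => rfl, ?_⟩
  · obtain rfl : i = j := Fin.succ_injective _ (congrArg Sigma.fst h)
    simpa using h
  · rintro (I | p) c <;> simp [rowM]
  · have h0 : ∀ p, γ' (.inr p) = γ (.inr p) := fun p => by simpa using e (.inr p)
    have h1 : ∀ I : Ix d, I 0 ≠ c → γ' (.inl I) = γ (.inl I) := fun I hI => by
      simpa [hI] using e (.inl I)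
    funext j
    rcases j with I | p
    swap
    · exact h0 p
    by_cases hI : I 0 = c
    swap
    · exact h1 I hI
    have h2 := e (.inl I)
    simp only [Sum.elim_inl, hI, if_true, map_add, map_sum, map_mul, aeval_X, h0,
      ← Finset.add_sum_erase _ _ (Finset.mem_univ c)] at h2
    rw [Finset.sum_congr rfl fun c' hc => by
      rw [h1 _ (by simpa using hc)], add_left_inj, ← hI, Function.update_eq_self] at h2
    exact h.mul_right_cancel (by simpa [hI, rowM] using h2)
  · obtain ⟨u, hu⟩ := h.exists_left_inv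
    refine ⟨Sum.elim (fun I => if I 0 = c then (γ' (.inl I) - ∑ c' ∈ Finset.univ.erase c,
      γ' (.inl (Function.update I 0 c')) * γ' (.inr ⟨0, c'⟩)) * u else γ' (.inl I))
      fun p => γ' (.inr p), ?_⟩
    rintro (I | p)
    swap
    · simp
    by_cases hI : I 0 = c
    swap
    · simp [hI]
    simp only [Sum.elim_inl, Sum.elim_inr, hI, if_true, map_add, map_sum, map_mul, aeval_X,
      ← Finset.add_sum_erase _ _ (Finset.mem_univ c), Function.update_self, Function.update_idem]
    rw [mul_assoc, show u * γ' (.inr ⟨0, c⟩) = 1 from hu, mul_one, sub_add,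
      sub_eq_zero.2 (Finset.sum_congr rfl fun c' hc => by rw [if_neg (Finset.ne_of_mem_erase hc)]),
      sub_zero, ← hI, Function.update_eq_self]
  · rw [aeval_rename, aeval_mdl, aeval_mdl, ← (Fin.consEquiv fun i => Fin (d i)).sum_comp,
      Fintype.sum_prod_type_right]
    refine Finset.sum_congr rfl fun I _ => ?_
    simp [Fin.consEquiv, Fin.prod_univ_succ, Finset.sum_mul, mul_assoc]

variable {Φ : AP k (Option ζ)} {M : ℕ}

theorem vol_eq (h : Lev Φ (M + 1)) (hex : ∀ (β : Type) [Fintype β] [DecidableEq β]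
    (R : MvPolynomial β k) a, ∃ v, AV (TP Φ R a) v) (n : ℕ) (d : Fin n → ℕ)
    (hd : ∀ i, d i + i = n + 1) (a : ℕ) {v v' : Mot k} (hv : AV (TP Φ (dt k (n + 1)) a) v)
    (hv' : AV (TP Φ (mdl k d) a) v') : v = v' := by
  induction n generalizing a v v' with
  | zero =>
    obtain ⟨w, hw⟩ := hex Unit (X ()) a
    have h1 := hw.rename (⟨fun _ => (0, 0), fun _ _ _ => rfl⟩ : Unit ↪ Fin 1 × Fin 1)
    have h2 := hw.rename (⟨fun _ => .inl default, fun _ _ _ => rfl⟩ : Unit ↪ Vr d)
    have h3 : AV (TP Φ (dt k (0 + 1)) a) w := by simpa [dt] using h1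
    have h4 : AV (TP Φ (mdl k d) a) w := by simpa [mdl] using h2
    exact (hv.unique h3).trans (hv'.unique h4).symm
  | succ n ih =>
    obtain ⟨s, hs⟩ : ∃ s, M + 1 ≤ a + s := ⟨M + 1, by omega⟩
    induction s generalizing a v v' with
    | zero =>
      obtain ⟨w, hw⟩ := hex Empty 0 a
      have key : ∀ (β : Type) [Fintype β] [DecidableEq β] (R : MvPolynomial β k) v,
          AV (TP Φ R a) v → v = w := fun β _ _ R v hv =>
        hv.unique ((hw.rename (β := β) .ofIsEmpty).congr fun K _ _ x => by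
          constructor <;> refine h K _ _ fun o => ?_ <;> rcases o with _ | j <;>
            simp [(pow_dvd_pow _ (show M + 1 ≤ a from hs)).mul_right])
      exact (key _ _ _ hv).trans (key _ _ _ hv').symm
    | succ s ih' =>
      obtain ⟨v₁, h1⟩ := hex _ (dt k (n + 1)) a
      obtain ⟨v₂, h2⟩ := hex _ (dt k (n + 1 + 1)) (a + 1)
      obtain ⟨w₁, g1⟩ := hex _ (mdl k fun i : Fin n => d i.succ) a
      obtain ⟨w₂, g2⟩ := hex _ (mdl k d) (a + 1)
      rw [step h (hex _) dt_lin dt_piv hv h1 h2, step h (hex _) mdl_lin mdl_piv hv' g1 g2,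
        ih _ (fun i => by have := hd i.succ; simp at this; omega) a h1 g1,
        ih' (a + 1) h2 g2 (by omega), show d 0 = n + 1 + 1 by simpa using hd 0]

/-- Substitution of a polynomial in new variables for one variable. -/
def sb (P : MvPolynomial β k) (G : MvPolynomial (Option ζ) k) : MvPolynomial (β ⊕ ζ) k :=
  aeval (fun o : Option ζ => o.elim (rename Sum.inl P) fun j => X (.inr j)) G

theorem sub_eq_sb (P : MvPolynomial β k) (G : MvPolynomial (Option ζ) k) :
    sub ζ P (optionEquivLeft k ζ G) = sb P G := by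
  induction G using MvPolynomial.induction_on with
  | C c => simp [sb]
  | add p q hp hq => simp_all [sb]
  | mul_X p o hp => rcases o with _ | j <;> simp_all [sb]

theorem vol_sb (n : ℕ) (d : Fin n → ℕ) (hd : ∀ i, d i + i = n + 1) (G : MvPolynomial (Option ζ) k)
    (m : ℕ) (c : k) : vol (sb (dt k (n + 1)) G) m c = vol (sb (mdl k d) G) m c := by
  let Φ : AP k (Option ζ) := fun K _ _ γ => PowerSeries.X ^ (m + 1) ∣ aeval (fun o : Option ζ =>
    o.elim (γ none) fun j => PowerSeries.X * γ (some j)) G -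
      PowerSeries.C (algebraMap k K c) * PowerSeries.X ^ m
  have key : ∀ (β : Type) [Fintype β] [DecidableEq β] (R : MvPolynomial β k),
      (∀ (S : Type) [CommRing S] [Algebra k S] (s : S) (γ : β → S),
        aeval (fun j => s * γ j) R = s ^ (n + 1) * aeval γ R) →
      AV (TP Φ R (n + 1)) (vol (sb R G) m c) := fun β _ _ R hR =>
    (hasVol_vol _ m c).congr fun K _ _ x => by
      simp only [CP, TP, Φ, sb, aeval_aeval, ← hR]
      refine iff_of_eq (congrArg (fun z => _ ∣ aeval z G - _) (funext fun o => ?_))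
      rcases o with _ | j <;> simp [arc, aeval_rename, Function.comp_def]
  refine vol_eq (Φ := Φ) (M := m) (fun K _ _ γ γ' e => (CP_congr le_rfl fun o => ?_).1)
    (fun β _ _ R a => ?_) n d hd (n + 1) (key _ _ fun S _ _ s γ => ?_)
      (key _ _ fun S _ _ s γ => ?_)
  · rcases o with _ | j
    · exact e _
    · simpa [← mul_sub] using (e _).mul_left _
  · let U : PowerSeries (MvPolynomial ((β ⊕ ζ) × ℕ) k) := aeval (fun o : Option ζ => o.elim
      (PowerSeries.X ^ a * aeval (fun j => ser X (.inl j)) R)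
        fun j => PowerSeries.X * ser X (.inr j)) G - PowerSeries.C (C c) * PowerSeries.X ^ m
    obtain ⟨v, h⟩ := (hasVol_true (k := k) (ι := (β ⊕ ζ) × ℕ)).and_forall_eq (Finset.range (m + 1))
      fun p => PowerSeries.coeff p U
    refine ⟨v, h.congr fun K _ _ x => ?_⟩
    have h1 : ∀ p, aeval x (PowerSeries.coeff p U) = PowerSeries.coeff p
        (PowerSeries.mapAlgHom (aeval x : MvPolynomial _ k →ₐ[k] K) U) := fun p => by
      rw [PowerSeries.mapAlgHom_apply, PowerSeries.coeff_map]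
      rfl
    simp only [h1, true_and, Finset.mem_range, ← PowerSeries.X_pow_dvd_iff]
    simp only [TP, Φ, U, map_sub]
    rw [algHom_aeval _ _ (fun o : Option ζ => o.elim (PowerSeries.X ^ a * aeval (fun j =>
      ser x (.inl j)) R) fun j => PowerSeries.X * ser x (.inr j)) (fun o => ?_) G]
    · simp [PowerSeries.mapAlgHom_apply]
    · rcases o with _ | j
      · simp only [Option.elim_none, map_mul, algHom_aeval _ _ _ (fun j => map_ser x (.inl j)) R]
        simp [PowerSeries.mapAlgHom_apply]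
      · simp only [Option.elim_some, map_mul, map_ser]
        simp [PowerSeries.mapAlgHom_apply]
  · rw [aeval_dt, aeval_dt]
    simpa using Matrix.det_mul_column (fun _ : Fin (n + 1) => s) (Matrix.of fun i j => γ (i, j))
  · simp only [aeval_mdl, Finset.prod_mul_distrib, Finset.mul_sum, Finset.prod_const,
      Finset.card_univ, Fintype.card_fin]
    exact Finset.sum_congr rfl fun I _ => by ring

theorem LB_sb [CharZero k] (n : ℕ) (d : Fin n → ℕ) (hd : ∀ i, d i + i = n + 1)
    {G : MvPolynomial (Option ζ) k} {c : Polynomial k} (h : LB (sb (dt k (n + 1)) G) c) :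
    LB (sb (mdl k d) G) c := by
  have h0 : ∀ j : ℕ, (∏ i ∈ Finset.range (n + 1), (j + 1 + i : k)) ≠ 0 := fun j =>
    Finset.prod_ne_zero_iff.2 fun i _ => by norm_cast; omega
  rw [← sub_eq_sb] at h ⊢
  refine LB.transfer (b := fun j => Units.mk0 _ (h0 j)) (fun i => by have := hd i; omega)
    (fun j => ?_) ?_ h
  · rw [Units.val_mk0, Finset.prod_range_succ', mul_comm, ← Finset.prod_range_reflect,
      Finset.prod_range]
    simp only [Nat.cast_zero, add_zero]
    refine congrArg _ (Finset.prod_congr rfl fun i _ => ?_)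
    rw [show d i = 1 + (n - 1 - i + 1) by have := hd i; omega]
    push_cast
    ring
  have h1 : map (C : k →+* MvPolynomial ζ k) (dt k (n + 1)) =
      (Matrix.mvPolynomialX (Fin (n + 1)) (Fin (n + 1)) (MvPolynomial ζ k)).det := by
    rw [dt, RingHom.map_det]
    congr 1
    ext i j : 2
    simp
  rw [h1]
  refine ⟨?_, fun j v => ?_⟩
  · rw [RingHom.map_det]
    exact Matrix.det_eq_zero_of_row_eq_zero 0 fun j => by simp
  · refine (fis_cay (n + 1) id id _ v).trans ?_
    rw [Gen.cayley (fun i j a b => by simp [pderiv_X, Pi.single_apply])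
      (Matrix.det_mvPolynomialX_ne_zero _ _)]
    have h2 : (∏ i ∈ Finset.range (n + 1), (j + 1 + i : MvPolynomial (Fin (n + 1) × Fin (n + 1))
        (MvPolynomial ζ k))) = C (C (∏ i ∈ Finset.range (n + 1), (j + 1 + i : k))) := by simp
    rw [h2, C_mul', map_smul]
    rfl

end

end Pool.Agent.P.MP_b91a16_ag.Dt
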