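import Pool.Agent.P.MP_b91a16_ag.Dt.Wt

/-! Compositions of nondegenerate polynomials with models are stably nondegenerate. -/

set_option linter.unusedSectionVars false

open MvPolynomial Finsupp

namespace Pool.Agent.P.MP_b91a16_ag.Dt

noncomputable section

open St

variable {k σ ρ ζ Λ : Type} [Field k] [Fintype σ] [DecidableEq σ] [Fintype ρ] [DecidableEq ρ]
  [Fintype ζ] [DecidableEq ζ] [Fintype Λ] [DecidableEq Λ]

variable (F : MvPolynomial (ρ ⊕ ζ) k) (g : ρ → MvPolynomial σ k) (zz : ζ → σ)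

open Classical in
def vv : ρ ⊕ ζ → MvPolynomial (σ ⊕ ρ) k :=
  Sum.elim (fun i => if St.lin F (.inl i) = 0 then X (.inr i) else rename Sum.inl (g i))
    fun j => X (.inl (zz j))

open Classical in
def ee (i : ρ) : MvPolynomial σ k := if St.lin F (.inl i) = 0 then g i else 0

def cy : MvPolynomial (σ ⊕ ρ ⊕ ρ) k := aeval (fun a => rename (Sum.map id Sum.inl) (vv F g zz a)) F +
  ∑ i, (X (.inr (.inl i)) - rename Sum.inl (ee F g i)) * X (.inr (.inr i))

variable {F g zz}

theorem aeval_monomial_ne {K : Type} [Field K] [Algebra k K] {x : σ → K} (hx : ∀ j, x j ≠ 0)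
    (v : σ →₀ ℕ) : aeval x (monomial v (1 : k)) ≠ 0 := by
  rw [aeval_monomial, map_one, one_mul]
  exact Finset.prod_ne_zero_iff.2 fun j _ => pow_ne_zero _ (hx j)

theorem hc_X {w : σ → ℝ} {t : ℝ} (j : σ) :
    hc w t (X j : MvPolynomial σ k) = if w j = t then X j else 0 := by
  simp [X, hc_monomial, weight_single]

theorem nd_cy (hF : ND F) (bl : Λ → ρ) (zv : Λ → σ) (ev : Λ → σ →₀ ℕ)
    (hg : ∀ i, g i = ∑ l with bl l = i, X (zv l) * monomial (ev l) 1)
    (hd : ∀ l i, pderiv (zv l) (g i) = if bl l = i then monomial (ev l) 1 else 0)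
    (hz : ∀ l j, zz j ≠ zv l) (hzz : Function.Injective zz) : ND (cy F g zz) := by
  classical
  intro w hw h1 h2 x hx
  let η : Λ → MvPolynomial (σ ⊕ ρ ⊕ ρ) k := fun l => monomial (mapDomain Sum.inl (ev l)) 1
  let ω : Λ → ℝ := fun l => weight w (mapDomain Sum.inl (ev l)) + w (.inl (zv l))
  have h3 : ∀ t p, (∀ j, pderiv j (hc w t (cy F g zz)) = p → p ≠ 0 → 1 ≤ t) := fun t p j e hp =>
    not_lt.1 fun ht => hp (by rw [← e, h1 t ht, map_zero])
  have d0 : ∀ l i, pderiv (.inl (zv l)) (rename Sum.inl (g i) : MvPolynomial (σ ⊕ ρ ⊕ ρ) k) =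
      if bl l = i then η l else 0 := fun l i => by
    rw [pderiv_rename Sum.inl_injective, hd, apply_ite (rename _), rename_monomial, map_zero]
  have dZ : ∀ l, pderiv (.inl (zv l)) (cy F g zz) = (if St.lin F (.inl (bl l)) = 0 then
      -X (.inr (.inr (bl l))) else aeval (fun a => rename (Sum.map id Sum.inl) (vv F g zz a))
        (pderiv (.inl (bl l)) F)) * η l := fun l => by
    rw [cy, map_add, chain, Fintype.sum_sum_type, Finset.sum_eq_single (bl l), map_sum,
      Finset.sum_eq_single (bl l)]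
    · by_cases h : St.lin F (.inl (bl l)) = 0 <;> simp [vv, ee, h, d0, hz, Function.comp_def]
    · intro i _ hi
      by_cases h : St.lin F (.inl i) = 0 <;> simp [ee, h, d0, hi.symm]
    · simp
    · intro i _ hi
      by_cases h : St.lin F (.inl i) = 0 <;> simp [vv, h, d0, hi.symm, Function.comp_def]
    · simp
  have dY : ∀ i, pderiv (.inr (.inr i)) (cy F g zz) =
      X (.inr (.inl i)) - rename Sum.inl (ee F g i) := fun i => by
    rw [cy, map_add, chain, Finset.sum_eq_zero fun a _ => ?_]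
    · simp [pderiv_rename_inr, pderiv_X, Pi.single_apply]
    · refine mul_eq_zero_of_right _ (pderiv_eq_zero_of_notMem_vars fun h => ?_)
      obtain ⟨_ | _, -, h⟩ := mem_vars_rename _ _ h <;> simp at h
  have hη : ∀ l, aeval x (η l) ≠ 0 := fun l => aeval_monomial_ne hx _
  have A0 : ∀ l, St.lin F (.inl (bl l)) = 0 → pderiv (.inl (zv l)) (hc w
      (w (.inr (.inr (bl l))) + ω l) (cy F g zz)) = -X (.inr (.inr (bl l))) * η l := fun l h => by
    rw [pderiv_hc, dZ, if_pos h, hc_mul, map_neg, hc_X, if_pos (by simp only [ω]; ring)]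
  have A1 : ∀ l, St.lin F (.inl (bl l)) ≠ 0 → pderiv (.inl (zv l)) (hc w (ω l) (cy F g zz)) =
      C (St.lin F (.inl (bl l))) * η l := fun l h => by
    rw [pderiv_hc, dZ, if_neg h, hc_mul, show ω l - _ - _ = 0 by simp [ω], hc_zero hw]
    congr 2
    simpa [St.lin] using algHom_aeval (aeval (0 : σ ⊕ ρ ⊕ ρ → k)) (fun a => rename
      (Sum.map id Sum.inl) (vv F g zz a)) 0 (by rintro (i | j) <;> simp [vv, hg, apply_ite])
      (pderiv (.inl (bl l)) F)
  by_cases c0 : ∃ l, St.lin F (.inl (bl l)) = 0 ∧ w (.inr (.inr (bl l))) + ω l = 1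
  · obtain ⟨l, h, e⟩ := c0
    exact ⟨_, by rw [← e, A0 l h]; simpa using ⟨hx _, hη l⟩⟩
  by_cases c1 : ∃ l, St.lin F (.inl (bl l)) ≠ 0 ∧ ω l = 1
  · obtain ⟨l, h, e⟩ := c1
    exact ⟨_, by rw [← e, A1 l h]; simpa using ⟨h, hη l⟩⟩
  have b0 : ∀ l, St.lin F (.inl (bl l)) = 0 → 1 < w (.inr (.inr (bl l))) + ω l := fun l h =>
    (h3 _ _ _ (A0 l h) fun e => by simpa [hx, hη] using congrArg (aeval x) e).lt_of_ne'
      fun e => c0 ⟨l, h, e⟩
  have b1 : ∀ l, St.lin F (.inl (bl l)) ≠ 0 → 1 < ω l := fun l h =>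
    (h3 _ _ _ (A1 l h) fun e => by simpa [h, hη] using congrArg (aeval x) e).lt_of_ne'
      fun e => c1 ⟨l, h, e⟩
  have hg' : ∀ i, rename Sum.inl (g i) = ∑ l with bl l = i, monomial (mapDomain Sum.inl (ev l) +
      single (.inl (zv l) : σ ⊕ ρ ⊕ ρ) 1) (1 : k) := fun i => by
    simp [hg i, rename_monomial, X, monomial_mul, add_comm, mapDomain_add]
  by_cases c2 : ∃ i, w (.inr (.inr i)) + w (.inr (.inl i)) = 1
  · obtain ⟨i, e⟩ := c2
    refine ⟨.inr (.inr i), ?_⟩
    rw [pderiv_hc, dY, map_sub, hc_X, if_pos (by linarith), ee]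
    split_ifs with h
    · rw [hg', map_sum, Finset.sum_eq_zero fun l hl => ?_]
      · simpa using hx _
      obtain rfl := (Finset.mem_filter.1 hl).2
      have := b0 l h
      rw [hc_monomial, if_neg (by simp only [map_add, weight_single, one_smul, ω] at this ⊢; linarith)]
    · simpa using hx _
  have b2 : ∀ i, 1 < w (.inr (.inr i)) + w (.inr (.inl i)) := fun i =>
    (h3 _ _ (.inr (.inr i)) rfl fun e => by
      have := congrArg (pderiv (.inr (.inl i))) e
      rw [pderiv_hc, pderiv_hc, dY, add_sub_cancel_left, sub_self, hc_zero hw] at this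
      simp [pderiv_rename_inr] at this).lt_of_ne' fun e => c2 ⟨i, e⟩
  let ok : ρ ⊕ ζ → Prop := Sum.elim (fun i => St.lin F (.inl i) = 0) fun _ => True
  let ι : ρ ⊕ ζ → σ ⊕ ρ ⊕ ρ := Sum.elim (fun i => .inr (.inl i)) fun j => .inl (zz j)
  have hι : Function.Injective ι := by rintro (i | i) (j | j) <;> simp [ι, hzz.eq_iff]
  let w' : ρ ⊕ ζ → ℝ := fun a => if ok a then w (ι a) else 2
  have hw' : ∀ a, 0 < w' a := fun a => by
    simp only [w']
    split_ifs
    exacts [hw _, two_pos]
  let F₀ : MvPolynomial {a // ok a} k := aeval (fun a => if h : ok a then X ⟨a, h⟩ else 0) F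
  have e1 : ∀ t ≤ 1, hc w' t F = rename Subtype.val (hc (w ∘ ι ∘ Subtype.val) t F₀) := fun t ht => by
    rw [show w ∘ ι ∘ Subtype.val = w' ∘ Subtype.val from funext fun a => (if_pos a.2).symm,
      ← hc_rename, ← algHom_aeval (rename Subtype.val) _ _ (fun _ => rfl) F |>.symm]
    refine hc_eq_of_Big ?_ ht
    conv => enter [2, 1]; rw [← aeval_X_left_apply F]
    refine aeval_sub_mem (fun a => ?_) F
    split_ifs with h
    · simp
    · simpa [X] using monomial_mem_Big (v := single a 1) hw' (by simp [weight_single, w', h]) (1 : k)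
  have e2 : ∀ t ≤ 1, hc w t (cy F g zz) =
      rename (ι ∘ Subtype.val) (hc (w ∘ ι ∘ Subtype.val) t F₀) := fun t ht => by
    rw [← hc_rename, ← algHom_aeval (rename (ι ∘ Subtype.val)) _ _ (fun _ => rfl) F |>.symm]
    refine hc_eq_of_Big ?_ ht
    rw [cy, add_sub_right_comm]
    refine add_mem (aeval_sub_mem ?_ F) (sum_mem fun i _ => ?_)
    · rintro (i | j)
      · by_cases h : St.lin F (.inl i) = 0
        · simp [vv, ok, ι, h]
        · simp only [vv, ok, h, Sum.elim_inl, if_false, dif_neg, not_false_iff, map_zero, sub_zero,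
            rename_rename]
          refine (hg' i).symm ▸ sum_mem fun l hl => monomial_mem_Big hw ?_ _
          obtain rfl := (Finset.mem_filter.1 hl).2
          simpa [weight_single, ω] using b1 l h
      · simp [vv, ok, ι]
    · rw [sub_mul]
      refine sub_mem ?_ ?_
      · rw [X, X, monomial_mul]
        exact monomial_mem_Big hw (by simpa [weight_single, add_comm] using b2 i) _
      · rw [ee]
        split_ifs with h
        · rw [hg', Finset.sum_mul]
          refine sum_mem fun l hl => ?_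
          obtain rfl := (Finset.mem_filter.1 hl).2
          rw [X, monomial_mul]
          exact monomial_mem_Big hw (by simpa [weight_single, add_comm, ω] using b0 l h) _
        · simp
  have hι' := hι.comp (Subtype.val_injective (p := ok))
  rw [e2 1 le_rfl, reg_rename hι', ← Function.comp_assoc x, ← reg_rename Subtype.val_injective,
    ← e1 1 le_rfl]
  refine hF w' hw' (fun t ht => ?_) (fun e => h2 ?_) _ fun a => hx _
  · have := h1 t ht
    rw [e2 t ht.le, map_eq_zero_iff _ (rename_injective _ hι')] at this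
    rw [e1 t ht.le, this, map_zero]
  · rw [e1 1 le_rfl, map_eq_zero_iff _ (rename_injective _ Subtype.val_injective)] at e
    rw [e2 1 le_rfl, e, map_zero]

theorem lin_rename {τ : Type} [Fintype τ] [DecidableEq τ] {ε : σ → τ} {j : τ} (h : ∀ i, ε i ≠ j)
    (p : MvPolynomial σ k) : St.lin (rename ε p) j = 0 := by
  rw [St.lin, pderiv_eq_zero_of_notMem_vars fun h' => ?_, map_zero]
  obtain ⟨i, -, hi⟩ := mem_vars_rename _ _ h'
  exact h i hi

theorem lin_sub (p q : MvPolynomial σ k) (j : σ) : St.lin (p - q) j = St.lin p j - St.lin q j := by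
  simp [St.lin]

theorem exists_change (hg : ∀ i, constantCoeff (g i) = 0) :
    ∃ φ : σ ⊕ ρ ⊕ ρ → MvPolynomial (σ ⊕ ρ ⊕ ρ) k, (∀ a, constantCoeff (φ a) = 0) ∧
      (Matrix.of fun a j => St.lin (φ a) j).det ≠ 0 ∧
      aeval φ (hyp ρ (aeval (Sum.elim g fun j => X (zz j)) F)) = cy F g zz := by
  classical
  obtain ⟨H, h1, h2⟩ := exists_diff (aeval (0 : σ ⊕ ρ → k))
    (γ := fun a => rename Sum.inl (Sum.elim g (fun j => X (zz j)) a)) (γ' := vv F g zz)
    (by rintro (i | j) <;> simp [hg]) (by rintro (i | j) <;> simp [vv, hg, apply_ite]) F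
  refine ⟨Sum.elim (fun a => X (.inl a)) (Sum.elim (fun i => X (.inr (.inl i)) -
    rename Sum.inl (ee F g i)) fun i => X (.inr (.inr i)) + rename (Sum.map id Sum.inl)
      (if St.lin F (.inl i) = 0 then H (.inl i) else 0)), ?_, fun h => ?_, ?_⟩
  · rintro (a | i | i)
    · simp
    · simp [ee, hg, apply_ite]
    · have := h2 (.inl i)
      by_cases h : St.lin F (.inl i) = 0 <;> simp_all
  · obtain ⟨v, h3, h4⟩ := Matrix.exists_mulVec_eq_zero_iff.2 h
    have h5 : ∀ a, v (.inl a) = 0 := fun a => by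
      simpa [Matrix.mulVec, dotProduct, lin_X] using congrFun h4 (.inl a)
    have h6 : ∀ i, v (.inr (.inl i)) = 0 := fun i => by
      simpa [Matrix.mulVec, dotProduct, lin_sub, lin_X, h5, lin_rename] using
        congrFun h4 (.inr (.inl i))
    have h7 : ∀ i, v (.inr (.inr i)) = 0 := fun i => by
      simpa [Matrix.mulVec, dotProduct, lin_add, lin_X, h5, h6, lin_rename] using
        congrFun h4 (.inr (.inr i))
    exact h3 (funext fun a => by rcases a with a | a | a <;> simp [h5, h6, h7])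
  · have h3 := congrArg (rename (Sum.map id Sum.inl : σ ⊕ ρ → σ ⊕ ρ ⊕ ρ)) h1
    rw [algHom_aeval _ _ _ (fun _ => rfl), map_add, algHom_aeval _ _ _ (fun _ => rfl)] at h3
    rw [aeval_hyp, cy, h3, aeval_aeval, add_assoc]
    congr 1
    · congr 2
      funext a
      rw [rename_rename, rename_eq_aeval (_ ∘ _)]
      rfl
    · simp only [Fintype.sum_sum_type, Sum.elim_inl, Sum.elim_inr, mul_add, Finset.sum_add_distrib,
        add_comm (∑ i, _ * X _)]
      congr 1
      simp only [vv, Sum.elim_inl, Sum.elim_inr, rename_X, sub_self, zero_mul, Finset.sum_const_zero,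
        add_zero, map_sum]
      refine Finset.sum_congr rfl fun i _ => ?_
      by_cases h : St.lin F (.inl i) = 0 <;> simp [ee, h, Function.comp_def]

theorem stably {n r : ℕ} {f : MvPolynomial σ k} {G : MvPolynomial (σ ⊕ Fin r ⊕ Fin r) k}
    {φ : σ ⊕ Fin r ⊕ Fin r → MvPolynomial (σ ⊕ Fin r ⊕ Fin r) k}
    (h0 : ∀ a, constantCoeff (φ a) = 0) (h1 : (Matrix.of fun a j => St.lin (φ a) j).det ≠ 0)
    (h2 : aeval φ (hyp (Fin r) f) = G) (hG : ND G) (ε : σ ≃ Fin n) :
    StablyNondeg (rename ε f) := by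
  let E : σ ⊕ Fin r ⊕ Fin r ≃ Fin (n + r + r) := (Equiv.sumAssoc _ _ _).symm.trans
    ((((ε.sumCongr (.refl _)).trans finSumFinEquiv).sumCongr (.refl _)).trans finSumFinEquiv)
  refine ⟨r, fun a => (rename E (φ (E.symm a)) : MvPolynomial _ k), 1, rename E G, fun a => ?_, ?_,
    by simp, ND_iff.1 (hG.rename E), ?_⟩
  · rw [← MvPowerSeries.coeff_zero_eq_constantCoeff_apply, coeff_coe]
    exact (constantCoeff_rename E _).trans (h0 (E.symm a))
  · rw [← Matrix.det_submatrix_equiv_self E]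
    convert h1 using 2
    ext a j
    simp [lin_eq, ← coeff_rename_mapDomain E E.injective]
  · have h3 : stab (rename ε f) r = rename E (hyp (Fin r) f) := by
      simp [stab, hyp, E, Function.comp_def]
    rw [h3, aeval_rename, one_mul, ← h2]
    refine (algHom_aeval ((coeToMvPowerSeries.algHom k).comp (rename E)) φ _ (fun a => ?_) _).symm
    simp

end

end Pool.Agent.P.MP_b91a16_ag.Dt
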