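import Pool.Agent.P.MP_b91a16_ag.Dt.Defs
import Pool.Agent.P.MP_b91a16_ag.Dt.Inst
import Pool.Agent.P.MP_b91a16_ag.Dt.Nd

/-! The strong motivic monodromy conjecture for determinantal compositions. -/

set_option linter.unusedSectionVars false

open MvPolynomial

namespace Pool.Agent.P.MP_b91a16_ag.Dt

noncomputable section

open St

variable {k σ τ υ : Type} [Field k] [Fintype σ] [DecidableEq σ] [Fintype τ] [DecidableEq τ]
  [Fintype υ] [DecidableEq υ]

def Same (f : MvPolynomial σ k) (g : MvPolynomial τ k) : Prop :=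
  (∀ m c, vol f m c = vol g m c) ∧ ∀ b, LB f b → LB g b

theorem Same.trans {f : MvPolynomial σ k} {g : MvPolynomial τ k} {h : MvPolynomial υ k}
    (h1 : Same f g) (h2 : Same g h) : Same f h :=
  ⟨fun m c => (h1.1 m c).trans (h2.1 m c), fun b hb => h2.2 b (h1.2 b hb)⟩

theorem Same.of_rename {f : MvPolynomial σ k} {g : MvPolynomial τ k} {ε : σ → τ}
    (hε : Function.Injective ε) (h : rename ε f = g) : Same f g := by
  subst h
  refine ⟨fun m c => (((hasVol_vol f m c).comap ((⟨ε, hε⟩ : σ ↪ τ).prodMap (.refl ℕ))).congr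
    fun K _ _ x => ?_).unique (hasVol_vol _ m c), fun b ⟨h, h0, h1⟩ => ?_⟩
  · rw [CP, CP, aeval_rename]
    rfl
  · have h2 : Fm f ≤ (Fm (rename ε f)).comap ((rename ε).toLinearMap.compLeft ℕ) :=
      Fm_le (Submodule.mem_comap.2 (mo Fm_base (by simp)))
        (fun F hF j => Submodule.mem_comap.2 (mo (Fm_mul hF (X (ε j))) (by simp)))
        (fun F hF j => Submodule.mem_comap.2 (mo (Fm_pderiv hF (ε j)) (by simp [pderiv_rename hε])))
        fun F hF => Submodule.mem_comap.2 (mo (Fm_nat hF) (by simp))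
    exact ⟨rename ε h, by rwa [constantCoeff_rename], mo (h2 h1) (by simp)⟩

/-- Substitution of polynomials in separate variables. -/
def sA {ι ζ : Type} {β : ι → Type} (P : ∀ i, MvPolynomial (β i) k) (F : MvPolynomial (ι ⊕ ζ) k) :
    MvPolynomial ((Σ i, β i) ⊕ ζ) k :=
  aeval (Sum.elim (fun i => rename (fun a => .inl ⟨i, a⟩) (P i)) fun j => X (.inr j)) F

def peel {r : ℕ} (β : Fin (r + 1) → Type) (ζ : Type) :
    β 0 ⊕ (Σ i : Fin r, β i.succ) ⊕ ζ ≃ (Σ i, β i) ⊕ ζ where
  toFun := Sum.elim (fun a => .inl ⟨0, a⟩) (Sum.elim (fun p => .inl ⟨p.1.succ, p.2⟩) .inr)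
  invFun := Sum.elim (fun p => Fin.cases (motive := fun i => β i → _) .inl
    (fun i a => .inr (.inl ⟨i, a⟩)) p.1 p.2) fun j => .inr (.inr j)
  left_inv := by rintro (a | p | j) <;> rfl
  right_inv := by
    rintro (⟨i, a⟩ | j)
    · induction i using Fin.cases <;> rfl
    · rfl

def swp (α β γ : Type) : α ⊕ β ⊕ γ → β ⊕ α ⊕ γ :=
  Sum.elim (fun a => .inr (.inl a)) (Sum.elim .inl fun c => .inr (.inr c))

theorem swp_inj (α β γ : Type) : Function.Injective (swp α β γ) := by
  rintro (a | a | a) (b | b | b) <;> simp [swp]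

theorem same_sA (r : ℕ) (β γ : Fin r → Type) [∀ i, Fintype (β i)] [∀ i, DecidableEq (β i)]
    [∀ i, Fintype (γ i)] [∀ i, DecidableEq (γ i)] (P : ∀ i, MvPolynomial (β i) k)
    (g : ∀ i, MvPolynomial (γ i) k) (h : ∀ i (ζ : Type) [Fintype ζ] [DecidableEq ζ]
      (G : MvPolynomial (Option ζ) k), Same (sb (P i) G) (sb (g i) G))
    (ζ : Type) [Fintype ζ] [DecidableEq ζ] (F : MvPolynomial (Fin r ⊕ ζ) k) :
    Same (sA P F) (sA g F) := by
  induction r generalizing ζ with
  | zero =>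
    refine Same.of_rename (ε := Sum.map (fun p => p.1.elim0) id)
      (Sum.map_injective.2 ⟨fun p => p.1.elim0, fun _ _ => id⟩) (algHom_aeval _ _ _ ?_ F)
    rintro (i | j)
    exacts [i.elim0, by simp]
  | succ r ih =>
    let G : MvPolynomial (Option ((Σ i : Fin r, β i.succ) ⊕ ζ)) k := aeval (Sum.elim
      (Fin.cases (X none) fun i => rename (fun a => some (.inl ⟨i, a⟩)) (P i.succ))
      fun j => X (some (.inr j))) F
    let F' : MvPolynomial (Fin r ⊕ γ 0 ⊕ ζ) k := aeval (Sum.elim (Fin.cases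
      (rename (fun a => .inr (.inl a)) (g 0)) fun i => X (.inl i)) fun j => X (.inr (.inr j))) F
    refine (Same.of_rename (peel β ζ).symm.injective ?_).trans ((h 0 _ G).trans
      ((Same.of_rename (swp_inj _ _ _) ?_).trans ((ih _ _ (fun i => P i.succ) (fun i => g i.succ)
      (fun i => h i.succ) _ F').trans (Same.of_rename ((peel γ ζ).injective.comp (swp_inj _ _ _)) ?_))))
    all_goals
      simp only [sA, sb, G, F', aeval_aeval, rename_eq_aeval]
      refine congrArg (aeval · F) (funext ?_)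
      rintro (i | j)
      · induction i using Fin.cases <;> simp [peel, swp, bind₁_bind₁, Function.comp_def]
      · simp [peel, swp]

theorem stably_mdl {r N : ℕ} {ζ : Type} [Fintype ζ] [DecidableEq ζ] {n : Fin r → ℕ}
    (d : ∀ i, Fin (n i) → ℕ) {F : MvPolynomial (Fin r ⊕ ζ) k} (hF : ND F)
    (ε : (Σ i, Vr (d i)) ⊕ ζ ≃ Fin N) :
    StablyNondeg (rename ε (sA (fun i => mdl k (d i)) F)) := by
  have hi : ∀ i, Function.Injective fun a : Vr (d i) => (.inl ⟨i, a⟩ : (Σ i, Vr (d i)) ⊕ ζ) :=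
    fun i a b h => by simpa using h
  have hm : ∀ i (I : Ix (d i)), (∏ t, X (.inl ⟨i, .inr ⟨t, I t⟩⟩) :
      MvPolynomial ((Σ i, Vr (d i)) ⊕ ζ) k) =
      monomial (∑ t, Finsupp.single (.inl ⟨i, .inr ⟨t, I t⟩⟩) 1) 1 := fun i I => by
    rw [monomial_sum_one]
    rfl
  obtain ⟨φ, h1, h2, h3⟩ := exists_change (F := F) (zz := Sum.inr) (g := fun i =>
    rename (fun a => (.inl ⟨i, a⟩ : (Σ i, Vr (d i)) ⊕ ζ)) (mdl k (d i))) fun i => by simp [mdl]
  refine stably h1 h2 h3 (nd_cy (Λ := Σ i, Ix (d i)) hF Sigma.fst (fun l => .inl ⟨l.1, .inl l.2⟩)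
    (fun l => ∑ t, Finsupp.single (.inl ⟨l.1, .inr ⟨t, l.2 t⟩⟩) 1) (fun i => ?_)
    (fun ⟨i, I⟩ j => ?_) (by simp) Sum.inr_injective) ε
  · rw [Finset.sum_filter, Fintype.sum_sigma, Finset.sum_eq_single i (by simp +contextual) (by simp)]
    simp [mdl, hm]
  · split_ifs with h
    · obtain rfl : i = j := h
      rw [pderiv_rename (hi i), pderiv_mdl_Z, ← hm]
      simp
    · refine pderiv_eq_zero_of_notMem_vars fun h' => ?_
      obtain ⟨a, -, ha⟩ := mem_vars_rename _ _ h'
      exact h (congrArg Sigma.fst (Sum.inl_injective ha)).symm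

theorem main [CharZero k] {r l N : ℕ} (n : Fin r → ℕ) (hn : ∀ i, 0 < n i)
    (ε : (Σ i : Fin r, Fin (n i) × Fin (n i)) ⊕ Fin l ≃ Fin N) (F : MvPolynomial (Fin (r + l)) k)
    (hF : F ≠ 0) (h0 : constantCoeff F = 0) (hN : Nondeg F) :
    ∃ S : Finset (ℕ × ℕ), zeta (detComp n ε F) ∈ poleRing k S ∧ ∀ p ∈ S, 0 < p.1 ∧ 0 < p.2 ∧
      ∀ b, LocalBernsteinEq (detComp n ε F) b → b.eval (-(p.1 : k) / p.2) = 0 := by
  obtain ⟨n, rfl⟩ : ∃ n' : Fin r → ℕ, n = fun i => n' i + 1 :=
    ⟨fun i => n i - 1, funext fun i => (Nat.sub_add_cancel (hn i)).symm⟩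
  let d : ∀ i, Fin (n i) → ℕ := fun i t => n i + 1 - t
  have hd : ∀ i t, d i t + t = n i + 1 := fun i t => by have := t.2; simp only [d]; omega
  let F' := rename finSumFinEquiv.symm F
  let ε' := Fintype.equivFin ((Σ i, Vr (d i)) ⊕ Fin l)
  have h1 : Same (detComp _ ε F) (rename ε' (sA (fun i => mdl k (d i)) F')) := by
    refine (Same.of_rename ε.symm.injective ?_).trans ((same_sA r _ _ (fun i => dt k (n i + 1)) _
      (fun i ζ _ _ G => ⟨vol_sb _ _ (hd i) G, fun b => LB_sb _ _ (hd i)⟩) _ F').trans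
      (Same.of_rename ε'.injective rfl))
    rw [sA, aeval_rename]
    refine algHom_aeval _ _ _ (fun a => ?_) F
    induction a using Fin.addCases with
    | left i =>
      simp only [Fin.addCases_left, Function.comp_apply, finSumFinEquiv_symm_apply_castAdd,
        Sum.elim_inl, dt, AlgHom.map_det]
      congr 1
      ext p q : 2
      simp
    | right j => simp
  let I₀ : ∀ i, Ix (d i) := fun i t => ⟨0, by have := hd i t; have := t.2; omega⟩
  have h2 : aeval (Sum.elim (fun p => Sum.elim (fun I => if I = I₀ p.1 then X (.inl p.1) else 0)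
      (fun _ => 1) p.2) fun j => X (.inr j)) (sA (fun i => mdl k (d i)) F') = F' := by
    refine (algHom_aeval _ _ X ?_ F').trans (aeval_X_left_apply _)
    rintro (i | j)
    · rw [Sum.elim_inl, aeval_rename, aeval_mdl, Finset.sum_eq_single (I₀ i)]
      · simp
      · exact fun I _ h => by simp [h]
      · simp
    · simp
  obtain ⟨S, h3, h4⟩ := St.main _ (fun h => hF (by
    rw [map_eq_zero_iff _ (rename_injective _ ε'.injective)] at h
    rw [h, map_zero] at h2
    exact (map_eq_zero_iff _ (rename_injective _ finSumFinEquiv.symm.injective)).1 h2.symm))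
    (by
      have : aeval (fun _ => (0 : k)) (sA (fun i => mdl k (d i)) F') = aeval 0 F' :=
        algHom_aeval _ _ _ (by rintro (i | j) <;> simp [mdl]) F'
      simpa [F', h0] using this) (stably_mdl d ((ND_iff.2 hN).rename _) ε')
  refine ⟨S, ?_, fun p hp => ⟨(h4 p hp).1, (h4 p hp).2.1, fun b hb =>
    (h4 p hp).2.2 b (LB_iff.1 (h1.2 b (LB_iff.2 hb)))⟩⟩
  convert h3 using 1
  ext m
  rcases m with _ | m
  · simp [zeta, series]
  · rw [coeff_zeta_vol, coeff_zeta_vol, h1.1]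

end

end Pool.Agent.P.MP_b91a16_ag.Dt
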