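import Pool.Agent.P.MP_b91a16_ag.Dt.Cayley

/-! The Fischer pairing and the projection onto the polynomials in a relative invariant. -/

set_option linter.unusedSectionVars false

open MvPolynomial

namespace Pool.Agent.P.MP_b91a16_ag.Dt

noncomputable section

variable {B β : Type} [CommRing B] [Fintype β] [DecidableEq β]

def fac (α : β →₀ ℕ) : ℕ := ∏ j, (α j).factorial

theorem fac_add (α : β →₀ ℕ) (a : β) : fac (α + Finsupp.single a 1) = fac α * (α a + 1) := by
  rw [fac, fac, ← Finset.mul_prod_erase _ _ (Finset.mem_univ a),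
    ← Finset.mul_prod_erase _ (fun j => (α j).factorial) (Finset.mem_univ a),
    Finset.prod_congr rfl fun j hj => by
      rw [Finsupp.add_apply, Finsupp.single_eq_of_ne (Finset.ne_of_mem_erase hj), add_zero]]
  simp [Nat.factorial_succ]
  ring

/-- The Fischer pairing. -/
def fis : MvPolynomial β B →ₗ[B] MvPolynomial β B →ₗ[B] B :=
  (basisMonomials β B).constr B fun α => (fac α : B) • lcoeff B α

theorem fis_monomial (α : β →₀ ℕ) (c : B) (q : MvPolynomial β B) :
    fis (monomial α c) q = c * (fac α * coeff α q) := by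
  have h : monomial α c = c • basisMonomials β B α := by simp [smul_monomial]
  rw [h, map_smul, fis, Module.Basis.constr_basis]
  simp

theorem fis_comm (p q : MvPolynomial β B) : fis p q = fis q p := by
  induction p using MvPolynomial.induction_on' with
  | add p p' h h' => simp [h, h']
  | monomial α c =>
    induction q using MvPolynomial.induction_on' with
    | add q q' h h' => simp only [map_add, LinearMap.add_apply, h, h']
    | monomial α' c' =>
      simp only [fis_monomial, coeff_monomial]
      by_cases h : α = α'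
      · simp [h]
        ring
      · simp [h, Ne.symm h]

theorem fis_X_mul (a : β) (p q : MvPolynomial β B) : fis (X a * p) q = fis p (pderiv a q) := by
  induction p using MvPolynomial.induction_on' with
  | add p p' h h' => simp [mul_add, h, h']
  | monomial α c =>
    rw [X, monomial_mul, fis_monomial, fis_monomial, coeff_pderiv, add_comm _ α, fac_add]
    push_cast
    ring

theorem fis_mul_X (a : β) (p q : MvPolynomial β B) : fis p (X a * q) = fis (pderiv a p) q := by
  rw [fis_comm, fis_X_mul, fis_comm]

theorem fis_one (q : MvPolynomial β B) : fis 1 q = constantCoeff q := by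
  simpa [fac, constantCoeff_eq] using fis_monomial 0 1 q

theorem fis_eq_zero {u p : MvPolynomial β B} {e : ℕ} (hu : u ∈ idealOfVars β B ^ e)
    (hp : p.totalDegree < e) : fis u p = 0 := by
  rw [u.as_sum, map_sum, LinearMap.sum_apply]
  refine Finset.sum_eq_zero fun α hα => ?_
  rw [fis_monomial, coeff_eq_zero_of_totalDegree_lt
    (hp.trans_le ((mem_pow_idealOfVars_iff _ _).1 hu α hα)), mul_zero, mul_zero]

theorem fis_cay {ν : Type} [Fintype ν] [DecidableEq ν] (k : ℕ) (a b : Fin k → ν)
    (u v : MvPolynomial (ν × ν) B) : fis u ((Matrix.of fun p q => X (a p, b q)).det * v) =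
      fis (cay (fun i j => pderiv (i, j)) k a b u) v := by
  induction k generalizing v with
  | zero => simp [cay]
  | succ k ih =>
    rw [Matrix.det_succ_row_zero, Finset.sum_mul, map_sum, cay, LinearMap.sum_apply, map_sum,
      LinearMap.sum_apply]
    refine Finset.sum_congr rfl fun q _ => ?_
    have h := ih (a ∘ Fin.succ) (b ∘ q.succAbove) (X (a 0, b q) * v)
    rw [fis_mul_X] at h
    rw [LinearMap.smul_apply, map_smul, LinearMap.smul_apply, LinearMap.comp_apply,
      Derivation.coeFn_coe, ← h, ← map_smul]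
    congr 1
    simp only [Algebra.smul_def, map_pow, map_neg, map_one, Matrix.of_apply]
    rw [mul_assoc, mul_assoc, mul_left_comm (X _)]
    rfl

variable (B β) in
/-- Words in the generators of the Weyl algebra. -/
def Wd : Submonoid (Module.End B (MvPolynomial β B)) :=
  Submonoid.closure (Set.range (fun a : β => LinearMap.mulLeft B (X a)) ∪
    Set.range (fun a : β => (pderiv a).toLinearMap))

theorem exists_adj {Q : Module.End B (MvPolynomial β B)} (h : Q ∈ Wd B β) :
    ∃ Q' ∈ Wd B β, ∀ p q, fis p (Q q) = fis (Q' p) q := by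
  induction h using Submonoid.closure_induction with
  | mem Q h =>
    rcases h with ⟨a, rfl⟩ | ⟨a, rfl⟩
    · exact ⟨_, Submonoid.subset_closure (Or.inr ⟨a, rfl⟩), fis_mul_X a⟩
    · exact ⟨_, Submonoid.subset_closure (Or.inl ⟨a, rfl⟩), fun p q => (fis_X_mul a p q).symm⟩
  | one => exact ⟨1, one_mem _, fun _ _ => rfl⟩
  | mul Q T _ _ h h' =>
    obtain ⟨Q', h1, h2⟩ := h
    obtain ⟨T', h3, h4⟩ := h'
    exact ⟨T' * Q', mul_mem h3 h1, fun p q => (h2 _ _).trans (h4 _ _)⟩

/-- The families `Q (P ^ j)`. -/
def Fa (P : MvPolynomial β B) : Submodule B (ℕ → MvPolynomial β B) :=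
  Submodule.span B {F | ∃ l p, F = fun j : ℕ => (j.descFactorial l : B) • (p * P ^ (j - l))}

theorem mem_Fa {P : MvPolynomial β B} {Q : Module.End B (MvPolynomial β B)} (h : Q ∈ Wd B β)
    {F : ℕ → MvPolynomial β B} (hF : F ∈ Fa P) : (fun j => Q (F j)) ∈ Fa P := by
  induction h using Submonoid.closure_induction generalizing F with
  | one => exact hF
  | mul Q T _ _ h h' => exact h (h' hF)
  | mem Q h =>
    refine (Submodule.span_le (p := (Fa P).comap (LinearMap.compLeft Q ℕ))).2 ?_ hF
    rintro _ ⟨l, p, rfl⟩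
    rcases h with ⟨a, rfl⟩ | ⟨a, rfl⟩
    · exact Submodule.subset_span ⟨l, X a * p, funext fun j => by simp [mul_assoc]⟩
    · have h1 : _ ∈ Fa P := add_mem (Submodule.subset_span ⟨l, pderiv a p, rfl⟩)
        (Submodule.subset_span ⟨l + 1, p * pderiv a P, rfl⟩)
      refine Submodule.mem_comap.2 ?_
      convert h1 using 1
      funext j
      simp only [LinearMap.compLeft_apply, Function.comp_apply, Derivation.coeFn_coe,
        pderiv_mul, pderiv_pow, Pi.add_apply, Nat.descFactorial_succ, Nat.cast_mul, Nat.sub_sub,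
        Algebra.smul_def, map_mul, map_natCast, Derivation.map_natCast]
      ring

/-- `P` satisfies a Cayley identity with invertible values `b j`. -/
structure Cay (P : MvPolynomial β B) (b : ℕ → Bˣ) : Prop where
  zero : constantCoeff P = 0
  succ : ∀ j v, fis (P ^ (j + 1)) (P * v) = b j * fis (P ^ j) v

def nn (b : ℕ → Bˣ) (j : ℕ) : Bˣ := ∏ i ∈ Finset.range j, b i

variable {P : MvPolynomial β B} {b : ℕ → Bˣ}

theorem Cay.coeff_aux (h : Cay P b) (p : MvPolynomial β B) (j : ℕ) :
    (∑ j ∈ Finset.range (p.totalDegree + 1),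
      Polynomial.monomial j ((nn b j)⁻¹ * fis (P ^ j) p : B)).coeff j =
      (nn b j)⁻¹ * fis (P ^ j) p := by
  simp only [Polynomial.finsetSum_coeff, Polynomial.coeff_monomial, Finset.sum_ite_eq',
    Finset.mem_range]
  split_ifs with hj
  · rfl
  · rw [fis_eq_zero (e := j) (Ideal.pow_mem_pow ?_ _) (by omega), mul_zero]
    rw [← pow_one (idealOfVars β B), mem_pow_idealOfVars_iff']
    intro x hx
    obtain rfl : x = 0 := by simpa [Finsupp.degree_eq_zero_iff] using hx
    exact h.zero

/-- The orthogonal projection onto the polynomials in `P`. -/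
def Cay.pr (h : Cay P b) : MvPolynomial β B →ₗ[B] Polynomial B where
  toFun p := ∑ j ∈ Finset.range (p.totalDegree + 1),
    Polynomial.monomial j ((nn b j)⁻¹ * fis (P ^ j) p : B)
  map_add' p q := by
    ext j
    rw [Polynomial.coeff_add, h.coeff_aux, h.coeff_aux, h.coeff_aux, map_add, mul_add]
  map_smul' c p := by
    ext j
    rw [Polynomial.coeff_smul, h.coeff_aux, h.coeff_aux, map_smul, smul_eq_mul, RingHom.id_apply,
      smul_eq_mul, mul_left_comm]

theorem Cay.coeff_pr (h : Cay P b) (p : MvPolynomial β B) (j : ℕ) :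
    (h.pr p).coeff j = (nn b j)⁻¹ * fis (P ^ j) p := h.coeff_aux p j

theorem Cay.pr_mul (h : Cay P b) (p : MvPolynomial β B) : h.pr (P * p) = Polynomial.X * h.pr p := by
  ext j
  rcases j with _ | j
  · simp [h.coeff_pr, fis_one, h.zero]
  · rw [Polynomial.coeff_X_mul, h.coeff_pr, h.coeff_pr, h.succ, nn, Finset.prod_range_succ,
      mul_inv, Units.val_mul, mul_assoc, Units.inv_mul_cancel_left, nn]

theorem Cay.pr_pow (h : Cay P b) (p : MvPolynomial β B) (j : ℕ) :
    h.pr (p * P ^ j) = h.pr p * Polynomial.X ^ j := by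
  induction j with
  | zero => simp
  | succ j ih => rw [pow_succ', mul_left_comm, h.pr_mul, ih, pow_succ', mul_left_comm]

theorem Cay.pr_aeval (h : Cay P b) (p : MvPolynomial β B) (φ : Polynomial B) :
    h.pr (p * Polynomial.aeval P φ) = h.pr p * φ := by
  induction φ using Polynomial.induction_on' with
  | add φ φ' h1 h2 => simp [mul_add, h1, h2]
  | monomial j c =>
    rw [Polynomial.aeval_monomial, ← Algebra.smul_def, mul_smul_comm, map_smul, h.pr_pow,
      ← mul_smul_comm, Polynomial.smul_X_eq_monomial]

variable (B) in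
/-- The Euler operator. -/
def th : Module.End B (Polynomial B) := LinearMap.mulLeft B Polynomial.X ∘ₗ Polynomial.derivative

theorem coeff_th (π φ : Polynomial B) (i : ℕ) :
    (Polynomial.aeval (th B) π φ).coeff i = π.eval (i : B) * φ.coeff i := by
  induction π using Polynomial.induction_on generalizing φ with
  | C c => simp
  | add π π' h h' => simp [h, h', add_mul]
  | monomial n c ih =>
    rw [pow_succ, ← mul_assoc, map_mul, Module.End.mul_apply, ih, Polynomial.aeval_X,
      Polynomial.eval_mul (q := Polynomial.X), mul_assoc _ _ (φ.coeff i)]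
    congr 1
    rcases i with _ | i <;> simp [th, Polynomial.coeff_derivative, mul_comm]

variable {δ : Module.End B (Polynomial B)}

theorem coeff_dl (h0 : δ 1 = 0) (h1 : ∀ j, δ (Polynomial.X ^ (j + 1)) = (b j : B) • Polynomial.X ^ j)
    (π : Polynomial B) (i j : ℕ) : (Polynomial.aeval δ π (Polynomial.X ^ j)).coeff i =
      if i ≤ j then (nn b j * (nn b i)⁻¹ : Bˣ) * π.coeff (j - i) else 0 := by
  induction π using Polynomial.induction_on' with
  | add π π' h h' => by_cases e : i ≤ j <;> simp [h, h', e, mul_add]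
  | monomial n c =>
    rw [Polynomial.aeval_monomial, Module.End.mul_apply, Module.algebraMap_end_apply,
      Polynomial.coeff_smul, Polynomial.coeff_monomial]
    induction n generalizing j with
    | zero =>
      by_cases e : i = j
      · simp [e]
      · simp [Polynomial.coeff_X_pow, e]
        omega
    | succ n ih =>
      rcases j with _ | j
      · simp [pow_succ, h0]
      rw [pow_succ, Module.End.mul_apply, h1, map_smul, Polynomial.coeff_smul, smul_comm, ih]
      by_cases e : i ≤ j
      · simp [e, e.trans (Nat.le_succ j), Nat.succ_sub e, nn, Finset.prod_range_succ]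
        ring_nf
      · by_cases e' : i = j + 1 <;> simp [e, e']
        omega

variable (δ) in
def Al : Subalgebra B (Module.End B (Polynomial B)) :=
  Algebra.adjoin B {LinearMap.mulLeft B Polynomial.X, th B, δ}

theorem aeval_mem_Al {T : Module.End B (Polynomial B)} (h : T ∈ Al δ) (π : Polynomial B) :
    Polynomial.aeval T π ∈ Al δ :=
  Algebra.adjoin_le (S := Al δ) (Set.singleton_subset_iff.2 h) (Polynomial.aeval_mem_adjoin_singleton B T)

theorem Cay.split (h : Cay P b) (h0 : δ 1 = 0)
    (h1 : ∀ j, δ (Polynomial.X ^ (j + 1)) = (b j : B) • Polynomial.X ^ j)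
    {F : ℕ → MvPolynomial β B} (hF : F ∈ Fa P) : ∃ A ∈ Al δ, ∃ A' ∈ Al δ, ∀ i j,
      (A (Polynomial.X ^ j)).coeff i = (if j ≤ i then (h.pr (F j)).coeff i else 0) ∧
      (A' (Polynomial.X ^ j)).coeff i =
        if i < j then (nn b j * (nn b i)⁻¹ : Bˣ) * (h.pr (F i)).coeff j else 0 := by
  induction hF using Submodule.span_induction with
  | zero => exact ⟨0, zero_mem _, 0, zero_mem _, by simp⟩
  | add F G _ _ h2 h3 =>
    obtain ⟨A, hA, A', hA', h2⟩ := h2
    obtain ⟨T, hT, T', hT', h3⟩ := h3
    refine ⟨A + T, add_mem hA hT, A' + T', add_mem hA' hT', fun i j => ?_⟩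
    simp only [LinearMap.add_apply, Polynomial.coeff_add, h2 i j, h3 i j, Pi.add_apply, map_add]
    constructor <;> split_ifs <;> ring
  | smul c F _ h2 =>
    obtain ⟨A, hA, A', hA', h2⟩ := h2
    refine ⟨c • A, Subalgebra.smul_mem _ hA c, c • A', Subalgebra.smul_mem _ hA' c, fun i j => ?_⟩
    simp only [LinearMap.smul_apply, Polynomial.coeff_smul, h2 i j, Pi.smul_apply, map_smul,
      smul_eq_mul]
    constructor <;> split_ifs <;> ring
  | mem F hF =>
    obtain ⟨l, p, rfl⟩ := hF
    obtain ⟨σ, hσ⟩ : ∃ σ : Polynomial B, ∀ e, σ.coeff e = (h.pr p).coeff (e + l) := by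
      induction l with
      | zero => exact ⟨_, fun _ => rfl⟩
      | succ l ih =>
        obtain ⟨σ, hσ⟩ := ih
        exact ⟨σ.divX, fun e => by rw [Polynomial.coeff_divX, hσ, add_right_comm, add_assoc]⟩
    have h2 : ∀ i j, j ≤ i → (h.pr ((j.descFactorial l : B) • (p * P ^ (j - l)))).coeff i =
        j.descFactorial l * σ.coeff (i - j) := fun i j e => by
      rw [map_smul, h.pr_pow, Polynomial.coeff_smul, Polynomial.coeff_mul_X_pow', if_pos (by omega),
        hσ, smul_eq_mul]
      by_cases e' : l ≤ j
      · rw [show i - (j - l) = i - j + l by omega]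
      · simp [Nat.descFactorial_of_lt (not_le.1 e')]
    have h3 := aeval_mem_Al (δ := δ) (T := th B) (Algebra.subset_adjoin (by simp)) (descPochhammer B l)
    refine ⟨_, mul_mem (aeval_mem_Al (T := LinearMap.mulLeft B Polynomial.X)
      (Algebra.subset_adjoin (by simp)) σ) h3, _, mul_mem h3 (aeval_mem_Al (T := δ)
      (Algebra.subset_adjoin (by simp)) (σ - Polynomial.C (σ.coeff 0))), fun i j => ⟨?_, ?_⟩⟩
    · have h4 : Polynomial.aeval (th B) (descPochhammer B l) (Polynomial.X ^ j) =
          (j.descFactorial l : B) • Polynomial.X ^ j := by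
        ext i
        rw [coeff_th, descPochhammer_eval_eq_descFactorial]
        by_cases e : i = j <;> simp [e, Polynomial.coeff_X_pow]
      have h5 : Polynomial.aeval (LinearMap.mulLeft B (Polynomial.X : Polynomial B)) σ =
          LinearMap.mulLeft B σ := by
        have := Polynomial.aeval_algHom_apply (Algebra.lmul B (Polynomial B)) Polynomial.X σ
        rw [Polynomial.aeval_X_left_apply] at this
        exact this
      rw [Module.End.mul_apply, h4, h5, map_smul, LinearMap.mulLeft_apply, Polynomial.coeff_smul,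
        Polynomial.coeff_mul_X_pow']
      split_ifs with e
      · rw [h2 _ _ e, smul_eq_mul]
      · simp
    · rw [Module.End.mul_apply, coeff_th, descPochhammer_eval_eq_descFactorial, coeff_dl h0 h1]
      rcases lt_trichotomy i j with e | rfl | e
      · rw [if_pos e.le, if_pos e, h2 _ _ e.le, Polynomial.coeff_sub, Polynomial.coeff_C,
          if_neg (by omega)]
        ring
      · simp
      · simp [e.not_ge, e.not_gt]

theorem Cay.core (h : Cay P b) (h0 : δ 1 = 0)
    (h1 : ∀ j, δ (Polynomial.X ^ (j + 1)) = (b j : B) • Polynomial.X ^ j)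
    {Q : Module.End B (MvPolynomial β B)} (hQ : Q ∈ Wd B β) :
    ∃ A ∈ Al δ, ∀ φ, h.pr (Q (Polynomial.aeval P φ)) = A φ := by
  have h2 : (fun j => P ^ j) ∈ Fa P := Submodule.subset_span ⟨0, 1, by simp⟩
  obtain ⟨Q', hQ', h3⟩ := exists_adj hQ
  obtain ⟨A, hA, _, -, h4⟩ := h.split h0 h1 (mem_Fa hQ h2)
  obtain ⟨_, -, A', hA', h5⟩ := h.split h0 h1 (mem_Fa hQ' h2)
  refine ⟨A + A', add_mem hA hA', fun φ => ?_⟩
  induction φ using Polynomial.induction_on' with
  | add φ φ' h6 h7 => simp only [map_add, h6, h7]
  | monomial j c =>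
    rw [← Polynomial.smul_X_eq_monomial, map_smul, map_smul, map_smul, map_smul, map_pow,
      Polynomial.aeval_X]
    congr 1
    ext i
    rw [LinearMap.add_apply, Polynomial.coeff_add, (h4 i j).1, (h5 i j).2]
    rcases le_or_gt j i with e | e
    · simp [e, e.not_gt]
    · simp only [e, e.not_ge, if_true, if_false, h.coeff_pr, h3, fis_comm (P ^ j), zero_add,
        Units.val_mul]
      rw [mul_comm (nn b j : B), mul_assoc, Units.mul_inv_cancel_left]

end

end Pool.Agent.P.MP_b91a16_ag.Dt
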