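import Pool.Agent.P.MP_b91a16_ag.Dt.Bt

/-! Volumes of sets of arcs: change of variables and the row recursion. -/

set_option linter.unusedSectionVars false

open MvPolynomial

namespace Pool.Agent.P.MP_b91a16_ag.Dt

noncomputable section

open St

variable {k τ β β' ζ : Type} [Field k] [Fintype τ] [DecidableEq τ] [Fintype β] [DecidableEq β]
  [Fintype β'] [DecidableEq β'] [Fintype ζ] [DecidableEq ζ]

abbrev AP (k : Type) [Field k] (τ : Type) : Type 1 :=
  ∀ (K : Type) [Field K] [Algebra k K], (τ → PowerSeries K) → Prop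

def AV (Ψ : AP k τ) (v : Mot k) : Prop := HasVol (k := k) (fun K _ _ x => Ψ K (ser x)) v

def Lev (Ψ : AP k τ) (M : ℕ) : Prop := ∀ (K : Type) [Field K] [Algebra k K]
  (γ γ' : τ → PowerSeries K), (∀ j, PowerSeries.X ^ M ∣ γ' j - γ j) → Ψ K γ → Ψ K γ'

theorem dvd_ser_sub {K : Type} [CommRing K] {x : τ × ℕ → K} {j : τ} {γ : PowerSeries K} {M : ℕ} :
    PowerSeries.X ^ M ∣ ser x j - γ ↔ ∀ l < M, x (j, l) = PowerSeries.coeff l γ := by
  simp [PowerSeries.X_pow_dvd_iff, ser, sub_eq_zero]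

theorem map_ser {K : Type} [CommRing K] [Algebra k K] (x : τ × ℕ → K) (j : τ) :
    PowerSeries.mapAlgHom (aeval x : MvPolynomial (τ × ℕ) k →ₐ[k] K) (ser X j) = ser x j := by
  ext p
  simp [ser, PowerSeries.mapAlgHom_apply]

theorem aeval_coeff {K : Type} [CommRing K] [Algebra k K] (x : τ × ℕ → K) (g : MvPolynomial τ k)
    (p : ℕ) : aeval x (PowerSeries.coeff p (aeval (ser (X : τ × ℕ → MvPolynomial (τ × ℕ) k)) g)) =
      PowerSeries.coeff p (aeval (ser x) g) := by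
  rw [← algHom_aeval _ _ _ (map_ser x) g, PowerSeries.mapAlgHom_apply, PowerSeries.coeff_map]
  rfl

theorem AV.cv {P Q : AP k τ} {m : ℕ} {v : Mot k} (hP : Lev P m) (hQ : Lev Q m)
    (ψ : τ → MvPolynomial τ k)
    (h1 : ∀ (K : Type) [Field K] [Algebra k K] γ, P K γ → Q K fun j => aeval γ (ψ j))
    (h2 : ∀ (K : Type) [Field K] [Algebra k K] (γ γ' : τ → PowerSeries K) N, P K γ →
      (∀ j, PowerSeries.X ^ N ∣ aeval γ' (ψ j) - aeval γ (ψ j)) → ∀ j,
        PowerSeries.X ^ N ∣ γ' j - γ j)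
    (h3 : ∀ (K : Type) [Field K] [Algebra k K] γ', Q K γ' →
      ∃ γ, P K γ ∧ ∀ j, aeval γ (ψ j) = γ' j) (h : AV P v) : AV Q v := by
  obtain ⟨F, c, hd, hc, e⟩ := h
  obtain ⟨M, hM, hF⟩ : ∃ M, m ≤ M ∧ F ⊆ Finset.univ ×ˢ Finset.range M :=
    ⟨m + F.sup (·.2) + 1, by omega, fun p hp => by
      have := Finset.le_sup (f := (·.2)) hp
      simp only [Finset.mem_product, Finset.mem_univ, Finset.mem_range, true_and] at this ⊢
      omega⟩
  obtain ⟨c', hc', e'⟩ := hasClass_cut_mono hd hc hF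
  have hm : ∀ (K : Type) [Field K] {z : PowerSeries K}, PowerSeries.X ^ M ∣ z →
      PowerSeries.X ^ m ∣ z := fun K _ z => (pow_dvd_pow _ hM).trans
  refine ⟨Finset.univ ×ˢ Finset.range M, c', fun K _ _ x y hxy hx => ?_,
    hc'.map (fun p => if p.2 < M then PowerSeries.coeff p.2 (aeval (ser X) (ψ p.1)) else 0)
      fun K _ _ => ?_, e.trans e'⟩
  · exact hQ K _ _ (fun j => hm K (dvd_ser_sub.2 fun l hl => by
      rw [← hxy _ (by simpa using hl)]; simp [ser])) hx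
  · have key : ∀ (x : τ × ℕ → K) (a : τ), PowerSeries.X ^ M ∣ ser (fun p : τ × ℕ =>
        aeval x (if p.2 < M then PowerSeries.coeff p.2 (aeval (ser X) (ψ p.1)) else
          (0 : MvPolynomial (τ × ℕ) k))) a - aeval (ser x) (ψ a) :=
      fun x a => dvd_ser_sub.2 fun l hl => by simp [hl, aeval_coeff]
    refine ⟨fun x hx => ⟨hQ K _ _ (fun j => hm K (key x j)) (h1 K _ hx.1),
      fun p hp => by simp [show ¬p.2 < M by simpa using hp]⟩, fun x hx x' hx' e => ?_,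
      fun y hy => ?_⟩
    · have h4 := h2 K _ (ser x') M hx.1 fun a => by
        have := dvd_sub (key x a) (key x' a)
        beta_reduce at e
        rwa [e, sub_sub_sub_cancel_left] at this
      funext p
      by_cases hp : p.2 < M
      · rw [dvd_ser_sub.1 (h4 p.1) p.2 hp]
        simp [ser]
      · rw [hx.2 p (by simpa using hp), hx'.2 p (by simpa using hp)]
    · obtain ⟨γ, h4, h5⟩ := h3 K _ hy.1
      let x : τ × ℕ → K := fun p => if p.2 < M then PowerSeries.coeff p.2 (γ p.1) else 0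
      have h6 : ∀ j, PowerSeries.X ^ M ∣ ser x j - γ j := fun j => dvd_ser_sub.2 fun l hl => if_pos hl
      refine ⟨x, ⟨hP K _ _ (fun j => hm K (h6 j)) h4, fun p hp => if_neg (by simpa using hp)⟩,
        funext fun p => ?_⟩
      by_cases hp : p.2 < M
      · have := dvd_add (key x p.1) (aeval_congr_dvd h6 (ψ p.1))
        rw [sub_add_sub_cancel, h5] at this
        simpa [ser] using dvd_ser_sub.1 this p.2 hp
      · rw [hy.2 p (by simpa using hp)]
        simp [hp]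

/-- A polynomial map that is bijective where the coordinate `p` is a unit. -/
def Tri (ψ : β → MvPolynomial β k) (p : β) : Prop := ∀ (S : Type) [CommRing S] [Algebra k S],
  (∀ γ γ' : β → S, IsUnit (γ p) → (∀ j, aeval γ' (ψ j) = aeval γ (ψ j)) → γ' = γ) ∧
    ∀ γ' : β → S, IsUnit (γ' p) → ∃ γ, ∀ j, aeval γ (ψ j) = γ' j

variable (Φ : AP k (Option ζ)) in
def TP (P : MvPolynomial β k) (a : ℕ) : AP k (β ⊕ ζ) := fun K _ _ γ =>
  Φ K fun o => o.elim (PowerSeries.X ^ a * aeval (fun j => γ (.inl j)) P) fun j => γ (.inr j)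

variable {Φ : AP k (Option ζ)} {M D : ℕ} {P : MvPolynomial β k} {ρ : Fin D ↪ β}

theorem lev_TP (h : Lev Φ M) (P : MvPolynomial β k) (a : ℕ) : Lev (TP Φ P a) M :=
  fun K _ _ γ γ' e => h K _ _ fun o => by
    rcases o with _ | j
    · simpa [← mul_sub] using (aeval_congr_dvd (fun j => e (.inl j)) P).mul_left _
    · exact e _

variable (ζ ρ) in
def Bz (l : ℕ) : AP k (β ⊕ ζ) := fun _ _ _ γ =>
  ∀ c : Fin D, c.1 < l → PowerSeries.constantCoeff (γ (.inl (ρ c))) = 0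

variable (ζ ρ) in
def Pv (c : Fin D) (Ψ : AP k (β ⊕ ζ)) : AP k (β ⊕ ζ) := fun K _ _ γ =>
  (Ψ K γ ∧ Bz (k := k) ζ ρ c K γ) ∧ PowerSeries.constantCoeff (γ (.inl (ρ c))) ≠ 0

theorem lev_Pv {Ψ : AP k (β ⊕ ζ)} (h : Lev Ψ (M + 1)) (c : Fin D) : Lev (Pv ζ ρ c Ψ) (M + 1) :=
  fun K _ _ γ γ' e hγ => by
    have h1 : ∀ j, PowerSeries.constantCoeff (γ' j) = PowerSeries.constantCoeff (γ j) := fun j => by
      simpa [sub_eq_zero] using PowerSeries.X_pow_dvd_iff.1 (e j) 0 M.succ_pos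
    exact ⟨⟨h K _ _ e hγ.1.1, fun c' hc => (h1 _).trans (hγ.1.2 c' hc)⟩, (h1 _).symm ▸ hγ.2⟩

theorem Tri.av (h : Lev Φ (M + 1)) {ψ : β → MvPolynomial β k} {c : Fin D} (hψ : Tri ψ (ρ c))
    (hρ : ∀ c, ψ (ρ c) = X (ρ c)) {a : ℕ} {v : Mot k}
    (hv : AV (Pv ζ ρ c (TP Φ (aeval ψ P) a)) v) : AV (Pv ζ ρ c (TP Φ P a)) v := by
  have hu : ∀ (K : Type) [Field K] {z : PowerSeries K}, PowerSeries.constantCoeff z ≠ 0 → IsUnit z :=
    fun K _ z hz => PowerSeries.isUnit_iff_constantCoeff.2 (IsUnit.mk0 _ hz)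
  refine hv.cv (lev_Pv (lev_TP h _ _) c) (lev_Pv (lev_TP h _ _) c)
    (Sum.elim (fun j => rename Sum.inl (ψ j)) fun j => X (.inr j)) (fun K _ _ γ hγ => ?_)
    (fun K _ _ γ γ' N hγ e => ?_) fun K _ _ γ' hγ => ?_
  · simpa [Pv, TP, Bz, aeval_rename, Function.comp_def, hρ, aeval_bind₁] using hγ
  · let π := Ideal.Quotient.mkₐ k (Ideal.span {(PowerSeries.X : PowerSeries K) ^ N})
    have h1 : ∀ z z', π z' = π z ↔ PowerSeries.X ^ N ∣ z' - z := fun z z' =>
      Ideal.Quotient.eq.trans Ideal.mem_span_singleton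
    have h2 := (hψ _).1 (fun j => π (γ (.inl j))) (fun j => π (γ' (.inl j))) ((hu K hγ.2).map π)
      fun j => by
        rw [← algHom_aeval π _ _ fun _ => rfl, ← algHom_aeval π _ _ fun _ => rfl, h1]
        simpa [aeval_rename, Function.comp_def] using e (.inl j)
    rintro (j | j)
    · exact (h1 _ _).1 (congrFun h2 j)
    · simpa using e (.inr j)
  · obtain ⟨γ, h1⟩ := (hψ _).2 (fun j => γ' (.inl j)) (hu K hγ.2)
    have h2 : ∀ c, γ (ρ c) = γ' (.inl (ρ c)) := fun c => by simpa [hρ] using h1 (ρ c)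
    refine ⟨Sum.elim γ fun j => γ' (.inr j), ?_, ?_⟩
    · simpa [Pv, TP, Bz, h2, aeval_bind₁, h1] using hγ
    · rintro (j | j) <;> simp [aeval_rename, Function.comp_def, h1]

theorem AV.rename {P' : MvPolynomial β' k} {a : ℕ} {v : Mot k} (h : AV (TP Φ P' a) v)
    (ε : β' ↪ β) : AV (TP Φ (rename ε P') a) v :=
  (h.comap ((ε.sumMap (.refl ζ)).prodMap (.refl ℕ))).congr fun K _ _ x => by
    simp only [TP, aeval_rename]
    rfl

theorem Bz_iff {K : Type} [Field K] [Algebra k K] (x : (β ⊕ ζ) × ℕ → K) (l : ℕ) :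
    Bz (k := k) ζ ρ l K (ser x) ↔ ∀ c : Fin D, c.1 < l → x (.inl (ρ c), 0) = 0 := by
  simp [Bz, ser]

theorem AV.pv {P' : MvPolynomial β' k} {a : ℕ} {v : Mot k} (h : AV (TP Φ P' a) v)
    (ε : β' ↪ β) (hε : ∀ j c, ε j ≠ ρ c) (c : Fin D) :
    AV (Pv ζ ρ c (TP Φ (MvPolynomial.rename ε P') a)) ((1 - Linv k) * (Linv k ^ c.1 * v)) := by
  have h0 : ∀ (K : Type) [Field K] [Algebra k K] (x : (β ⊕ ζ) × ℕ → K) (c' : Fin D) (t : K),
      TP Φ (MvPolynomial.rename ε P') a K (ser x) → TP Φ (MvPolynomial.rename ε P') a K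
        (ser (Function.update x (.inl (ρ c'), 0) t)) := fun K _ _ x c' t hx => by
    simpa [TP, aeval_rename, Function.comp_def, ser_update, Function.update_of_ne, hε] using hx
  let e : Fin D ↪ (β ⊕ ζ) × ℕ := ⟨fun c => (.inl (ρ c), 0), fun c c' h => by simpa using h⟩
  have h1 := (HasVol.and_forall_zero (h.rename ε) ((Finset.Iio c).map e) fun p hp K _ _ x t hx => by
    obtain ⟨c', -, rfl⟩ := Finset.mem_map.1 hp
    exact h0 K x c' t hx).and_ne (e c) fun K _ _ x t hx => ⟨h0 K x c t hx.1, fun p hp => by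
      rw [Function.update_of_ne (ne_of_mem_of_not_mem hp (by simp)), hx.2 p hp]⟩
  rw [Finset.card_map, Fin.card_Iio] at h1
  refine h1.congr fun K _ _ x => ?_
  simp only [Pv, Bz_iff, Finset.forall_mem_map, Finset.mem_Iio, Fin.lt_def]
  simp [ser, e]

theorem step (h : Lev Φ (M + 1)) (hex : ∀ (R : MvPolynomial β k) a, ∃ v, AV (TP Φ R a) v)
    {P' : MvPolynomial β' k}
    (hlin : ∀ (S : Type) [CommRing S] [Algebra k S] (s : S) (γ : β → S),
      aeval (fun j => if ∃ c, ρ c = j then s * γ j else γ j) P = s * aeval γ P)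
    (hpiv : ∀ c, ∃ (ε : β' ↪ β) (ψ ψ' : β → MvPolynomial β k), (∀ j c, ε j ≠ ρ c) ∧ Tri ψ (ρ c) ∧
      Tri ψ' (ρ c) ∧ (∀ c, ψ (ρ c) = X (ρ c)) ∧ (∀ c, ψ' (ρ c) = X (ρ c)) ∧
      aeval ψ P = aeval ψ' (rename ε P'))
    {a : ℕ} {v v' v'' : Mot k} (hv : AV (TP Φ P a) v) (hv' : AV (TP Φ P' a) v')
    (hv'' : AV (TP Φ P (a + 1)) v'') : v = (1 - Linv k ^ D) * v' + Linv k ^ D * v'' := by
  have key : ∀ l ≤ D, ∃ u, AV (k := k) (fun K _ _ γ => TP Φ P a K γ ∧ Bz (k := k) ζ ρ l K γ) u ∧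
      v = (1 - Linv k ^ l) * v' + u := by
    intro l hl
    induction l with
    | zero => exact ⟨v, hv.congr (by simp [Bz]), by simp⟩
    | succ l ih =>
      obtain ⟨u, hu, rfl⟩ := ih (by omega)
      obtain ⟨u₁, u₂, h₁, h₂, rfl⟩ := hu.split (X (.inl (ρ ⟨l, hl⟩), 0))
      obtain ⟨ε, ψ, ψ', h1, h2, h3, h4, h5, h6⟩ := hpiv ⟨l, hl⟩
      obtain ⟨w, hw⟩ := hex (aeval ψ P) a
      obtain ⟨w', hw'⟩ := hw.and_forall_eq (Finset.Iio (⟨l, hl⟩ : Fin D)) fun c => X (.inl (ρ c), 0)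
      obtain ⟨-, w₂, -, g₂, -⟩ := hw'.split (X (.inl (ρ ⟨l, hl⟩), 0))
      have g₃ : AV (Pv ζ ρ ⟨l, hl⟩ (TP Φ (aeval ψ P) a)) w₂ := g₂.congr fun K _ _ x => by
        simp only [Pv, Bz_iff, Finset.mem_Iio, Fin.lt_def]
        simp [ser]
      have e₁ : u₂ = w₂ := h₂.unique ((h2.av h h4 g₃).congr fun K _ _ x => by simp [Pv, ser])
      have e₂ := (h3.av h h5 (h6 ▸ g₃)).unique (hv'.pv ε h1 ⟨l, hl⟩)
      refine ⟨u₁, h₁.congr fun K _ _ x => ?_, by rw [e₁, e₂]; ring⟩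
      simp only [Bz_iff, and_assoc, aeval_X, Nat.lt_succ_iff_lt_or_eq, or_imp, forall_and]
      refine and_congr_right' (and_congr_right' ⟨fun h c hc => ?_, fun h => h _ rfl⟩)
      rwa [show c = ⟨l, hl⟩ from Fin.ext hc]
  obtain ⟨u, hu, rfl⟩ := key D le_rfl
  let w : β ⊕ ζ → ℕ := Sum.elim (fun j => if ∃ c, ρ c = j then 1 else 0) 0
  have h1 := (hv''.comap (shiftEmb w)).and_forall_zero (lowSet w) fun p hp K _ _ x t hx => by
    rwa [Function.update_comp_eq_of_forall_ne _ _ fun q e => by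
      rw [← e, mem_lowSet] at hp
      simp at hp]
  have h2 : (lowSet w).card = D := by
    rw [card_lowSet, Fintype.sum_sum_type]
    simp only [w, Sum.elim_inl, Sum.elim_inr, Pi.zero_apply, Finset.sum_const_zero, add_zero,
      Finset.sum_boole, Nat.cast_id]
    refine Eq.trans ?_ ((Finset.card_map ρ).trans (Finset.card_fin D))
    congr 1
    ext j
    simp
  rw [h2] at h1
  refine congrArg _ (hu.unique (h1.congr fun K _ _ x => ?_))
  have h3 : (∀ p ∈ lowSet w, x p = 0) ↔ Bz (k := k) ζ ρ D K (ser x) := by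
    simp [Bz_iff, mem_lowSet, w, apply_ite]
    exact ⟨fun h c => h _ _ c rfl rfl, fun h _ _ c e e' => e ▸ e' ▸ h c⟩
  rw [h3]
  refine and_congr_left fun hx => ?_
  have h4 : (fun j => ser x (.inl j)) = fun j => if ∃ c, ρ c = j then
      PowerSeries.X * ser (x ∘ shiftEmb w) (.inl j) else ser (x ∘ shiftEmb w) (.inl j) := by
    funext j
    split_ifs with hj
    · obtain ⟨c, rfl⟩ := hj
      ext p
      rcases p with _ | p
      · simpa [ser] using (Bz_iff x D).1 hx c c.2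
      · simp [ser, w, PowerSeries.coeff_succ_X_mul]
    · ext p
      simp [ser, w, hj]
  rw [TP, TP, h4, hlin, pow_succ, mul_assoc]
  rfl

end

end Pool.Agent.P.MP_b91a16_ag.Dt
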