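import Pool.Agent.P.MP_b91a16_ag.St.Final

/-! Weighted components and nondegeneracy in arbitrary finite sets of variables. -/

set_option linter.unusedSectionVars false

open MvPolynomial Finsupp

namespace Pool.Agent.P.MP_b91a16_ag.Dt

noncomputable section

open St

variable {k σ τ : Type} [Field k] [Fintype σ] [DecidableEq σ] [Fintype τ] [DecidableEq τ]

/-- The component of weight `t`. -/
def hc (w : σ → ℝ) (t : ℝ) : MvPolynomial σ k →ₗ[k] MvPolynomial σ k :=
  weightedHomogeneousComponent w t

variable {w : σ → ℝ} {t : ℝ} {p : MvPolynomial σ k}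

theorem coeff_hc (v : σ →₀ ℕ) : coeff v (hc w t p) = if weight w v = t then coeff v p else 0 :=
  coeff_weightedHomogeneousComponent _ _ _

theorem hc_monomial (v : σ →₀ ℕ) (a : k) :
    hc w t (monomial v a) = if weight w v = t then monomial v a else 0 := by
  ext u
  by_cases h : v = u
  · simp [coeff_hc, h, apply_ite (coeff u)]
  · simp [coeff_hc, h, apply_ite (coeff u)]

theorem pderiv_hc (j : σ) : pderiv j (hc w t p) = hc w (t - w j) (pderiv j p) := by
  ext v
  simp [coeff_pderiv, coeff_hc, weight_single, eq_sub_iff_add_eq]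

theorem hc_mul (v : σ →₀ ℕ) (a : k) :
    hc w t (p * monomial v a) = hc w (t - weight w v) p * monomial v a := by
  induction p using MvPolynomial.induction_on' with
  | add p q hp hq => simp [add_mul, hp, hq]
  | monomial u b => simp [monomial_mul, hc_monomial, eq_sub_iff_add_eq]

theorem hc_rename (ε : τ → σ) (q : MvPolynomial τ k) :
    hc w t (rename ε q) = rename ε (hc (w ∘ ε) t q) := by
  induction q using MvPolynomial.induction_on' with
  | add p q hp hq => simp [hp, hq]
  | monomial u b =>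
    have : weight w (mapDomain ε u) = weight (w ∘ ε) u := by
      rw [weight_apply, weight_apply, sum_mapDomain_index (by simp) (by simp [add_mul])]
      rfl
    simp [rename_monomial, hc_monomial, this, apply_ite (rename ε)]

theorem weight_pos (hw : ∀ j, 0 < w j) {v : σ →₀ ℕ} (hv : v ≠ 0) : 0 < weight w v := by
  obtain ⟨j, hj⟩ := DFunLike.ne_iff.1 hv
  exact (hw j).trans_le (le_weight_of_ne_zero (fun j => (hw j).le) hj)

theorem hc_neg (hw : ∀ j, 0 < w j) (ht : t < 0) : hc w t p = 0 := by
  ext v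
  rw [coeff_hc, if_neg, coeff_zero]
  rcases eq_or_ne v 0 with rfl | h
  · simpa using ht.ne'
  · exact (ht.trans (weight_pos hw h)).ne'

theorem hc_zero (hw : ∀ j, 0 < w j) : hc w 0 p = C (constantCoeff p) := by
  ext v
  rcases eq_or_ne v 0 with rfl | h
  · simp [coeff_hc, constantCoeff_eq]
  · simp [coeff_hc, (weight_pos hw h).ne', coeff_C, h.symm]

variable (k w) in
/-- Polynomials all of whose multiples only have terms of weight larger than one. -/
def Big : Ideal (MvPolynomial σ k) where
  carrier := {p | ∀ q, ∀ t ≤ 1, hc w t (q * p) = 0}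
  add_mem' h h' q t ht := by rw [mul_add, map_add, h q t ht, h' q t ht, add_zero]
  zero_mem' q t _ := by simp
  smul_mem' c p h q t ht := by rw [smul_eq_mul, ← mul_assoc, h _ t ht]

theorem monomial_mem_Big (hw : ∀ j, 0 < w j) {v : σ →₀ ℕ} (hv : 1 < weight w v) (a : k) :
    monomial v a ∈ Big k w := fun q t ht => by
  rw [hc_mul, hc_neg hw (by linarith), zero_mul]

theorem hc_eq_of_Big {q : MvPolynomial σ k} (h : p - q ∈ Big k w) (ht : t ≤ 1) :
    hc w t p = hc w t q := by
  simpa [sub_eq_zero] using h 1 t ht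

theorem aeval_sub_mem {S : Type} [CommRing S] [Algebra k S] {J : Ideal S} {γ γ' : τ → S}
    (h : ∀ j, γ' j - γ j ∈ J) (F : MvPolynomial τ k) : aeval γ' F - aeval γ F ∈ J := by
  refine Ideal.Quotient.eq.1 ((algHom_aeval (Ideal.Quotient.mkₐ k J) _ _ (fun _ => rfl) F).trans
    (algHom_aeval (Ideal.Quotient.mkₐ k J) _ _ (fun j => ?_) F).symm)
  exact (Ideal.Quotient.eq.2 (h j)).symm

/-- The point `x` is not critical. -/
def Reg (p : MvPolynomial σ k) (x : σ → AlgebraicClosure k) : Prop :=
  ∃ j, aeval x (pderiv j p) ≠ 0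

theorem reg_rename {ε : τ → σ} (hε : Function.Injective ε) (q : MvPolynomial τ k)
    (x : σ → AlgebraicClosure k) : Reg (rename ε q) x ↔ Reg q (x ∘ ε) := by
  constructor
  · rintro ⟨j, hj⟩
    by_cases h : ∃ i, ε i = j
    · obtain ⟨i, rfl⟩ := h
      exact ⟨i, by rwa [pderiv_rename hε, aeval_rename] at hj⟩
    · refine (hj ?_).elim
      rw [pderiv_eq_zero_of_notMem_vars fun h' => ?_, map_zero]
      obtain ⟨i, -, hi⟩ := mem_vars_rename _ _ h'
      exact h ⟨i, hi⟩
  · rintro ⟨i, hi⟩
    exact ⟨ε i, by rwa [pderiv_rename hε, aeval_rename]⟩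

def ND (p : MvPolynomial σ k) : Prop := ∀ w : σ → ℝ, (∀ j, 0 < w j) → (∀ t < 1, hc w t p = 0) →
  hc w 1 p ≠ 0 → ∀ x : σ → AlgebraicClosure k, (∀ j, x j ≠ 0) → Reg (hc w 1 p) x

theorem ND.rename (h : ND p) (e : σ ≃ τ) : ND (rename e p) := fun w hw h1 h2 x hx => by
  simp only [hc_rename, map_eq_zero_iff _ (rename_injective _ e.injective), ne_eq] at h1 h2
  rw [hc_rename, reg_rename e.injective]
  exact h _ (fun j => hw _) h1 h2 _ fun j => hx _

theorem ND_iff {n : ℕ} {f : MvPolynomial (Fin n) k} : ND f ↔ Nondeg f := by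
  have h1 : ∀ w v, pairing (n := n) w v = weight w v := fun w v => by
    simp [pairing, weight_eq_sum, mul_comm]
  have h2 : ∀ w, facePoly f w = hc w 1 f := fun w => by
    ext v
    simp only [facePoly, coeff_sum, coeff_monomial, Finset.sum_ite_eq', coeff_hc, h1,
      Finset.mem_filter, MvPolynomial.mem_support_iff]
    by_cases h : coeff v f = 0 <;> simp [h]
  refine forall_congr' fun w => forall_congr' fun _ => imp_congr ?_ (imp_congr ?_ (by rw [h2]; rfl))
  · refine ⟨fun h v hv => not_lt.1 fun h' => MvPolynomial.mem_support_iff.1 hv ?_, fun h t ht => ?_⟩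
    · simpa [coeff_hc, h1] using congrArg (coeff v) (h _ h')
    · ext v
      rw [coeff_hc, coeff_zero, ite_eq_right_iff]
      intro e
      by_contra h'
      exact absurd (h v (MvPolynomial.mem_support_iff.2 h')) (by rw [h1, e]; exact ht.not_ge)
  · simp only [ne_eq, MvPolynomial.ext_iff, coeff_hc, coeff_zero, h1, MvPolynomial.mem_support_iff]
    simp [and_comm]

theorem exists_diff {S : Type} [CommRing S] [Algebra k S] (χ : S →ₐ[k] k) {γ γ' : τ → S}
    (h : ∀ j, χ (γ j) = 0) (h' : ∀ j, χ (γ' j) = 0) (F : MvPolynomial τ k) :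
    ∃ H : τ → S, aeval γ' F = aeval γ F + ∑ j, (γ' j - γ j) * H j ∧ ∀ j, χ (H j) = St.lin F j := by
  induction F using MvPolynomial.induction_on with
  | C c => exact ⟨0, by simp, by simp [St.lin]⟩
  | add p q hp hq =>
    obtain ⟨H, h1, h2⟩ := hp
    obtain ⟨H', h3, h4⟩ := hq
    exact ⟨H + H', by simp only [map_add, h1, h3, Pi.add_apply, mul_add, Finset.sum_add_distrib]; ring,
      fun j => by simp [h2, h4, lin_add]⟩
  | mul_X p i hp =>
    obtain ⟨H, h1, -⟩ := hp
    refine ⟨fun j => H j * γ' i + if i = j then aeval γ p else 0, ?_, fun j => ?_⟩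
    · simp only [map_mul, aeval_X, h1, mul_add, Finset.sum_add_distrib, mul_ite, mul_zero,
        Finset.sum_ite_eq, Finset.mem_univ, if_true, ← mul_assoc, ← Finset.sum_mul]
      ring
    · have := algHom_aeval χ γ 0 h p
      simp [h', lin_mul, lin_X, apply_ite χ, this]

end

end Pool.Agent.P.MP_b91a16_ag.Dt
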